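import Mathlib

set_option autoImplicit false

open Metric Set Filter Topology ComplexConjugate
open scoped Manifold ContDiff

/-!
# Definitions for quasi-proper maps of two-sheeted coverings of the disc

`𝔻` is the open unit disc of `ℂ`.  A Riemann surface is a connected Hausdorff space `X` with a
`ChartedSpace ℂ X` structure satisfying `IsManifold 𝓘(ℂ) ω X`; a function `f : X → ℂ` (or
`X → X`) is holomorphic when it is `MDifferentiable 𝓘(ℂ) 𝓘(ℂ)`.
-/

namespace Pool.Agent.QP_fa6e01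

/-- The elementary Blaschke factor with zero `a`, normalised to be positive at `0`
(and equal to `z` for `a = 0`). -/
noncomputable def blaschkeFactor (a z : ℂ) : ℂ :=
  if a = 0 then z else (‖a‖ / a) * ((a - z) / (1 - conj a * z))

/-- `b` is, on the unit disc, a finite or infinite Blaschke product (a unimodular constant factor
is allowed; the index type may be empty, finite or infinite, and the zeros `a i` may repeat). -/
def IsBlaschkeProduct (b : ℂ → ℂ) : Prop :=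
  ∃ (ι : Type) (a : ι → ℂ) (c : ℂ), (∀ i, ‖a i‖ < 1) ∧ Summable (fun i => 1 - ‖a i‖) ∧ ‖c‖ = 1 ∧
    ∀ z, ‖z‖ < 1 → b z = c * ∏' i, blaschkeFactor (a i) z

section RiemannSurface

variable {X : Type*} [TopologicalSpace X] [ChartedSpace ℂ X]

/-- The order of vanishing of `f` at `x`, computed in the preferred chart at `x`. -/
noncomputable def zeroOrder (f : X → ℂ) (x : X) : ℕ∞ :=
  analyticOrderAt (f ∘ (chartAt ℂ x).symm) (chartAt ℂ x x)

/-- The set of critical points of `f`, i.e. the points where `df` vanishes. -/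
def crit (f : X → ℂ) : Set X := {x | mfderiv 𝓘(ℂ) 𝓘(ℂ) f x = 0}

/-- A quasi-proper map: a holomorphic `θ : X → 𝔻` with `sup |f| = sup |θ f|` (suprema in
`[0, ∞]`) for every holomorphic `f : X → ℂ`. -/
def IsQuasiProper (θ : X → ℂ) : Prop :=
  MDifferentiable 𝓘(ℂ) 𝓘(ℂ) θ ∧ (∀ x, ‖θ x‖ < 1) ∧
    ∀ f : X → ℂ, MDifferentiable 𝓘(ℂ) 𝓘(ℂ) f → ⨆ x, ‖f x‖ₑ = ⨆ x, ‖θ x * f x‖ₑ

/-- The standing data of the problem: `φ : X → 𝔻` is proper and holomorphic, has exactly two zeros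
counted with multiplicity and infinitely many critical points, and `∑ (1 - |φ|)` over the critical
points converges; `σ` is the sheet interchange; `B` is a Blaschke product with simple zeros exactly
at the critical values of `φ`; `ϑ` is holomorphic with `ϑ² = B ∘ φ` and `ϑ ∘ σ = -ϑ`. -/
structure TwoSheeted (φ : X → ℂ) (σ : X → X) (B : ℂ → ℂ) (ϑ : X → ℂ) : Prop where
  holo : MDifferentiable 𝓘(ℂ) 𝓘(ℂ) φ
  norm_lt : ∀ x, ‖φ x‖ < 1
  proper : ∀ K : Set ℂ, IsCompact K → K ⊆ ball 0 1 → IsCompact (φ ⁻¹' K)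
  two_zeros : ∑ᶠ x, zeroOrder φ x = 2
  crit_infinite : (crit φ).Infinite
  crit_summable : Summable (fun x : crit φ => 1 - ‖φ x‖)
  sigma_holo : MDifferentiable 𝓘(ℂ) 𝓘(ℂ) σ
  sigma_sigma : ∀ x, σ (σ x) = x
  sigma_ne : ∃ x, σ x ≠ x
  phi_sigma : ∀ x, φ (σ x) = φ x
  blaschke : ∃ c : ℂ, ‖c‖ = 1 ∧
    ∀ z, ‖z‖ < 1 → B z = c * ∏' v : ↥(φ '' crit φ), blaschkeFactor v z
  theta_holo : MDifferentiable 𝓘(ℂ) 𝓘(ℂ) ϑ
  theta_sq : ∀ x, ϑ x ^ 2 = B (φ x)
  theta_sigma : ∀ x, ϑ (σ x) = -ϑ x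

/-- A class of functions on `X` containing the family `𝓛` of the problem:
(i) `b ∘ φ` with `b` a Blaschke product; (ii) `ϑ`; (iii) `b ∘ ((u ∘ φ) ϑ)` with `b` a Blaschke
product and `u` holomorphic on the disc with `|u| ≤ 1` (the problem asks moreover that `u` be inner
and that `b^*(u² B)` be a Blaschke product). -/
def InClassL (φ ϑ : X → ℂ) (t : X → ℂ) : Prop :=
  (∃ b, IsBlaschkeProduct b ∧ ∀ x, t x = b (φ x)) ∨
  (∀ x, t x = ϑ x) ∨
  (∃ b u : ℂ → ℂ, IsBlaschkeProduct b ∧ DifferentiableOn ℂ u (ball 0 1) ∧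
    (∀ z, ‖z‖ < 1 → ‖u z‖ ≤ 1) ∧ ∀ x, t x = b (u (φ x) * ϑ x))

/-- `θ` is a finite product, or the pointwise limit of the partial products of a sequence, of
functions satisfying `L`. -/
def IsProductOf (L : (X → ℂ) → Prop) (θ : X → ℂ) : Prop :=
  (∃ (n : ℕ) (t : ℕ → X → ℂ), (∀ k < n, L (t k)) ∧ ∀ x, θ x = ∏ k ∈ Finset.range n, t k x) ∨
  (∃ t : ℕ → X → ℂ, (∀ k, L (t k)) ∧
    ∀ x, Tendsto (fun n => ∏ k ∈ Finset.range n, t k x) atTop (𝓝 (θ x)))

end RiemannSurface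

end Pool.Agent.QP_fa6e01
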