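import Mathlib
import Pool.Agent.QP_fa6e01.Defs

set_option autoImplicit false

open Complex Metric Set Filter Real Topology ComplexConjugate

namespace Pool.Agent.QP_fa6e01

/-- The Mobius involution `z ↦ (a - z)/(1 - conj a z)` of the disc. -/
noncomputable def mob (a z : ℂ) : ℂ := (a - z) / (1 - conj a * z)

lemma one_sub_ne_zero {a z : ℂ} (ha : ‖a‖ < 1) (hz : ‖z‖ < 1) : 1 - conj a * z ≠ 0 := by
  intro h
  have h1 : conj a * z = 1 := (sub_eq_zero.mp h).symm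
  have h2 : ‖conj a * z‖ = 1 := by rw [h1, norm_one]
  rw [norm_mul, RCLike.norm_conj] at h2
  nlinarith [norm_nonneg a, norm_nonneg z]

lemma one_sub_ne_zero' {a z : ℂ} (ha : ‖a‖ < 1) (hz : ‖z‖ ≤ 1) : 1 - conj a * z ≠ 0 := by
  intro h
  have h1 : conj a * z = 1 := (sub_eq_zero.mp h).symm
  have h2 : ‖conj a * z‖ = 1 := by rw [h1, norm_one]
  rw [norm_mul, RCLike.norm_conj] at h2
  nlinarith [norm_nonneg a, norm_nonneg z]

lemma mob_identity (a z : ℂ) :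
    ‖1 - conj a * z‖ ^ 2 - ‖a - z‖ ^ 2 = (1 - ‖a‖ ^ 2) * (1 - ‖z‖ ^ 2) := by
  have h (w : ℂ) : ‖w‖ ^ 2 = w.re ^ 2 + w.im ^ 2 := by
    rw [← Complex.normSq_eq_norm_sq, Complex.normSq_apply]; ring
  simp only [h]
  simp
  ring

lemma norm_mob_lt {a z : ℂ} (ha : ‖a‖ < 1) (hz : ‖z‖ < 1) : ‖mob a z‖ < 1 := by
  have h0 := one_sub_ne_zero ha hz
  have h1 : 0 < ‖1 - conj a * z‖ := norm_pos_iff.mpr h0
  rw [mob, norm_div, div_lt_one h1]
  have h2 := mob_identity a z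
  have h3 : 0 < (1 - ‖a‖ ^ 2) * (1 - ‖z‖ ^ 2) := by
    apply mul_pos <;> nlinarith [norm_nonneg a, norm_nonneg z]
  apply lt_of_pow_lt_pow_left₀ 2 h1.le
  linarith

lemma norm_mob_le {a z : ℂ} (ha : ‖a‖ < 1) (hz : ‖z‖ ≤ 1) : ‖mob a z‖ ≤ 1 := by
  have h0 := one_sub_ne_zero' ha hz
  have h1 : 0 < ‖1 - conj a * z‖ := norm_pos_iff.mpr h0
  rw [mob, norm_div, div_le_one h1]
  have h2 := mob_identity a z
  have h3 : 0 ≤ (1 - ‖a‖ ^ 2) * (1 - ‖z‖ ^ 2) := by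
    apply mul_nonneg <;> nlinarith [norm_nonneg a, norm_nonneg z]
  apply le_of_sq_le_sq _ h1.le
  linarith

/-- `1 - |mob a z|^2` in closed form. -/
lemma one_sub_norm_mob_sq {a z : ℂ} (ha : ‖a‖ < 1) (hz : ‖z‖ ≤ 1) :
    1 - ‖mob a z‖ ^ 2 = (1 - ‖a‖ ^ 2) * (1 - ‖z‖ ^ 2) / ‖1 - conj a * z‖ ^ 2 := by
  have h0 := one_sub_ne_zero' ha hz
  have h1 : 0 < ‖1 - conj a * z‖ := norm_pos_iff.mpr h0
  rw [mob, norm_div, div_pow, ← mob_identity, sub_div, div_self (pow_ne_zero 2 h1.ne')]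

lemma one_sub_norm_mob_le {a z : ℂ} (ha : ‖a‖ < 1) (hz : ‖z‖ ≤ 1) :
    1 - ‖mob a z‖ ≤ (1 + ‖a‖) / (1 - ‖a‖) * (1 - ‖z‖ ^ 2) := by
  have h0 := one_sub_ne_zero' ha hz
  have h1 : 0 < ‖1 - conj a * z‖ := norm_pos_iff.mpr h0
  have h2 := one_sub_norm_mob_sq ha hz
  have h3 : 1 - ‖mob a z‖ ≤ 1 - ‖mob a z‖ ^ 2 := by
    have := norm_mob_le ha hz
    nlinarith [norm_nonneg (mob a z)]
  have h4 : 1 - ‖a‖ ≤ ‖1 - conj a * z‖ := by
    have h5 : ‖(1:ℂ)‖ - ‖conj a * z‖ ≤ ‖1 - conj a * z‖ := norm_sub_norm_le _ _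
    rw [norm_one, norm_mul, RCLike.norm_conj] at h5
    nlinarith [norm_nonneg a, norm_nonneg z]
  have h6 : 0 < 1 - ‖a‖ := by linarith
  have h7 : 0 ≤ 1 - ‖z‖ ^ 2 := by nlinarith [norm_nonneg z]
  refine h3.trans ?_
  rw [h2, div_mul_eq_mul_div, div_le_div_iff₀ (by positivity) h6]
  have h8 : (1 - ‖a‖) ^ 2 ≤ ‖1 - conj a * z‖ ^ 2 := by gcongr
  have h9 : 0 ≤ (1 + ‖a‖) * (1 - ‖z‖ ^ 2) := by positivity
  nlinarith

lemma mob_involutive {a z : ℂ} (ha : ‖a‖ < 1) (hz : ‖z‖ < 1) : mob a (mob a z) = z := by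
  have h0 := one_sub_ne_zero ha hz
  have h1 := one_sub_ne_zero ha (norm_mob_lt ha hz)
  have h2 := one_sub_ne_zero ha ha
  unfold mob at *
  have h3 : 1 - conj a * ((a - z) / (1 - conj a * z)) = (1 - conj a * a) / (1 - conj a * z) := by
    rw [eq_div_iff h0, sub_mul, mul_assoc, div_mul_cancel₀ _ h0]
    ring
  have h4 : a - (a - z) / (1 - conj a * z) = z * (1 - conj a * a) / (1 - conj a * z) := by
    rw [eq_div_iff h0, sub_mul, div_mul_cancel₀ _ h0]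
    ring
  rw [h3, h4, div_div_div_cancel_right₀ h0, mul_div_assoc, div_self h2, mul_one]

lemma mob_injOn {a : ℂ} (ha : ‖a‖ < 1) : InjOn (mob a) (ball 0 1) := by
  intro z hz w hw h
  rw [mem_ball_zero_iff] at hz hw
  rw [← mob_involutive ha hz, h, mob_involutive ha hw]

lemma mob_zero (a : ℂ) : mob a 0 = a := by simp [mob]

lemma mob_self (a : ℂ) : mob a a = 0 := by simp [mob]

lemma mob_eq_zero_iff {a z : ℂ} (ha : ‖a‖ < 1) (hz : ‖z‖ < 1) : mob a z = 0 ↔ z = a := by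
  have h0 := one_sub_ne_zero ha hz
  rw [mob, div_eq_zero_iff]
  constructor
  · rintro (h | h)
    · exact (sub_eq_zero.mp h).symm
    · exact absurd h h0
  · rintro rfl
    left; simp

lemma differentiableAt_mob {a z : ℂ} (ha : ‖a‖ < 1) (hz : ‖z‖ < 1) :
    DifferentiableAt ℂ (mob a) z := by
  have h0 := one_sub_ne_zero ha hz
  unfold mob
  exact (by fun_prop : DifferentiableAt ℂ (fun z => a - z) z).div (by fun_prop) h0

lemma differentiableOn_mob {a : ℂ} (ha : ‖a‖ < 1) : DifferentiableOn ℂ (mob a) (ball 0 1) :=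
  fun z hz => (differentiableAt_mob ha (by simpa using hz)).differentiableWithinAt

/-! ### Blaschke factors -/

lemma blaschkeFactor_eq {a z : ℂ} (h : a ≠ 0) :
    blaschkeFactor a z = (‖a‖ / a) * mob a z := by
  simp [blaschkeFactor, h, mob]

lemma norm_blaschkeFactor {a z : ℂ} : ‖blaschkeFactor a z‖ = ‖mob a z‖ := by
  by_cases h : a = 0
  · simp [blaschkeFactor, h, mob]
  · rw [blaschkeFactor_eq h, norm_mul, norm_div, Complex.norm_real, norm_norm,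
      div_self (norm_ne_zero_iff.mpr h), one_mul]

lemma norm_blaschkeFactor_lt {a z : ℂ} (ha : ‖a‖ < 1) (hz : ‖z‖ < 1) :
    ‖blaschkeFactor a z‖ < 1 := by
  rw [norm_blaschkeFactor]; exact norm_mob_lt ha hz

lemma blaschkeFactor_self (a : ℂ) : blaschkeFactor a a = 0 := by
  rw [← norm_eq_zero, norm_blaschkeFactor, mob_self, norm_zero]

lemma differentiableOn_blaschkeFactor {a : ℂ} (ha : ‖a‖ < 1) :
    DifferentiableOn ℂ (blaschkeFactor a) (ball 0 1) := by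
  by_cases h : a = 0
  · have : blaschkeFactor a = fun z => z := by
      ext z; simp [blaschkeFactor, h]
    rw [this]
    exact differentiableOn_id
  · have : blaschkeFactor a = fun z => (‖a‖ / a) * mob a z := by
      ext z; exact blaschkeFactor_eq h
    rw [this]
    exact (differentiableOn_mob ha).const_mul _

lemma norm_one_sub_blaschkeFactor_le {a z : ℂ} (ha : ‖a‖ < 1) (hz : ‖z‖ < 1) :
    ‖blaschkeFactor a z - 1‖ ≤ (1 + ‖z‖) / (1 - ‖z‖) * (1 - ‖a‖) := by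
  have hz1 : 0 < 1 - ‖z‖ := by linarith
  have ha1 : 0 < 1 - ‖a‖ := by linarith
  by_cases h : a = 0
  · simp only [blaschkeFactor, h, if_true, norm_zero, sub_zero, mul_one]
    rw [le_div_iff₀ hz1]
    have h1 : ‖z - 1‖ ≤ ‖z‖ + 1 := by simpa using norm_sub_le z 1
    nlinarith [norm_nonneg z, norm_nonneg (z - 1)]
  · have h0 := one_sub_ne_zero ha hz
    have hna : (‖a‖ : ℂ) ≠ 0 := by exact_mod_cast norm_ne_zero_iff.mpr h
    have haa : conj a * a = (‖a‖ : ℂ) ^ 2 := by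
      rw [← Complex.normSq_eq_conj_mul_self, Complex.normSq_eq_norm_sq]; push_cast; ring
    have key : blaschkeFactor a z - 1 =
        -((1 - ‖a‖ : ℂ) * ((a + ‖a‖ * z) / (a * (1 - conj a * z)))) := by
      rw [blaschkeFactor_eq h, mob, ← mul_div_assoc, ← neg_mul, ← mul_div_assoc,
        div_mul_eq_mul_div, div_div, div_sub_one (mul_ne_zero h h0)]
      congr 1
      linear_combination z * haa
    rw [key, norm_neg, norm_mul, norm_div, norm_mul]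
    have h1 : ‖(1 - ‖a‖ : ℂ)‖ = 1 - ‖a‖ := by
      rw [show (1 - ‖a‖ : ℂ) = ((1 - ‖a‖ : ℝ) : ℂ) by push_cast; ring, Complex.norm_real,
        Real.norm_of_nonneg ha1.le]
    have h2 : ‖a + ‖a‖ * z‖ ≤ ‖a‖ * (1 + ‖z‖) := by
      calc ‖a + ‖a‖ * z‖ ≤ ‖a‖ + ‖(‖a‖ : ℂ) * z‖ := norm_add_le _ _
        _ = ‖a‖ * (1 + ‖z‖) := by rw [norm_mul, Complex.norm_real, norm_norm]; ring
    have h3 : 1 - ‖z‖ ≤ ‖1 - conj a * z‖ := by
      have h5 : ‖(1:ℂ)‖ - ‖conj a * z‖ ≤ ‖1 - conj a * z‖ := norm_sub_norm_le _ _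
      rw [norm_one, norm_mul, RCLike.norm_conj] at h5
      nlinarith [norm_nonneg a, norm_nonneg z]
    have ha0 : 0 < ‖a‖ := norm_pos_iff.mpr h
    rw [h1, mul_comm]
    apply mul_le_mul_of_nonneg_right _ ha1.le
    calc ‖a + ‖a‖ * z‖ / (‖a‖ * ‖1 - conj a * z‖)
        ≤ ‖a‖ * (1 + ‖z‖) / (‖a‖ * (1 - ‖z‖)) := by gcongr
      _ = (1 + ‖z‖) / (1 - ‖z‖) := by field_simp

end Pool.Agent.QP_fa6e01
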