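import Mathlib
import Pool.Agent.QP_fa6e01.Blaschke

set_option autoImplicit false

open Complex Metric Set Filter Real Topology ComplexConjugate

namespace Pool.Agent.QP_fa6e01

/-- The (possibly infinite) product of the Blaschke factors with zeros `a i`. -/
noncomputable def bprod {ι : Type*} (a : ι → ℂ) (z : ℂ) : ℂ := ∏' i, blaschkeFactor (a i) z

section

variable {ι : Type*} {a : ι → ℂ}

lemma hasProdUniformlyOn_bprod (ha : ∀ i, ‖a i‖ < 1) (hs : Summable fun i => 1 - ‖a i‖)
    {r : ℝ} (hr : r < 1) :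
    HasProdUniformlyOn (fun i z => blaschkeFactor (a i) z) (bprod a) (closedBall 0 r) := by
  have h1 := Summable.hasProdUniformlyOn_one_add
    (f := fun i z => blaschkeFactor (a i) z - 1) (u := fun i => (1 + r) / (1 - r) * (1 - ‖a i‖))
    (isCompact_closedBall (0:ℂ) r) (hs.mul_left _)
    (by
      refine Eventually.of_forall fun i x hx => ?_
      rw [mem_closedBall_zero_iff] at hx
      refine (norm_one_sub_blaschkeFactor_le (ha i) (hx.trans_lt hr)).trans ?_
      apply mul_le_mul_of_nonneg_right _ (by linarith [ha i])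
      rw [div_le_div_iff₀ (by linarith) (by linarith)]
      nlinarith)
    (by
      intro i
      have : ContinuousOn (blaschkeFactor (a i)) (closedBall 0 r) :=
        (differentiableOn_blaschkeFactor (ha i)).continuousOn.mono
          (closedBall_subset_ball hr)
      exact this.sub continuousOn_const)
  have e1 : (fun (i : ι) (z : ℂ) => 1 + (blaschkeFactor (a i) z - 1)) =
      fun i z => blaschkeFactor (a i) z := by
    ext i z; ring
  have e2 : (fun z : ℂ => ∏' i, (1 + (blaschkeFactor (a i) z - 1))) = bprod a := by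
    ext z
    simp only [bprod]
    congr 1
    ext i; ring
  rw [e1, e2] at h1
  exact h1

lemma hasProd_bprod (ha : ∀ i, ‖a i‖ < 1) (hs : Summable fun i => 1 - ‖a i‖)
    {z : ℂ} (hz : ‖z‖ < 1) : HasProd (fun i => blaschkeFactor (a i) z) (bprod a z) :=
  (hasProdUniformlyOn_bprod ha hs hz).hasProd (by simp)

lemma differentiableOn_bprod (ha : ∀ i, ‖a i‖ < 1) (hs : Summable fun i => 1 - ‖a i‖) :
    DifferentiableOn ℂ (bprod a) (ball 0 1) := by
  have h1 : HasProdLocallyUniformlyOn (fun i z => blaschkeFactor (a i) z) (bprod a) (ball 0 1) := by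
    apply hasProdLocallyUniformlyOn_of_forall_compact isOpen_ball
    intro K hK hKc
    rcases K.eq_empty_or_nonempty with rfl | hne
    · have := (hasProdUniformlyOn_bprod ha hs (r := 0) one_pos)
      exact this.mono (empty_subset _)
    · obtain ⟨x, hx, hmax⟩ := hKc.exists_isMaxOn hne continuous_norm.continuousOn
      have hx1 : ‖x‖ < 1 := by simpa using hK hx
      refine (hasProdUniformlyOn_bprod ha hs hx1).mono ?_
      intro y hy
      rw [mem_closedBall_zero_iff]
      exact hmax hy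
  rw [hasProdLocallyUniformlyOn_iff_tendstoLocallyUniformlyOn] at h1
  apply h1.differentiableOn _ isOpen_ball
  refine Eventually.of_forall fun s => ?_
  apply DifferentiableOn.fun_finsetProd
  intro i _
  exact differentiableOn_blaschkeFactor (ha i)

lemma norm_prod_le_one (s : Finset ι) (c : ι → ℂ) (hc : ∀ i, ‖c i‖ ≤ 1) :
    ‖∏ i ∈ s, c i‖ ≤ 1 := by
  rw [norm_prod]
  exact Finset.prod_le_one (fun _ _ => norm_nonneg _) (fun i _ => hc i)

lemma norm_bprod_le_one (ha : ∀ i, ‖a i‖ < 1) (hs : Summable fun i => 1 - ‖a i‖)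
    {z : ℂ} (hz : ‖z‖ < 1) : ‖bprod a z‖ ≤ 1 := by
  have h := (hasProd_bprod ha hs hz).norm
  refine le_of_tendsto h (Eventually.of_forall fun s => ?_)
  exact Finset.prod_le_one (fun _ _ => norm_nonneg _)
    (fun i _ => (norm_blaschkeFactor_lt (ha i) hz).le)

lemma norm_prod_sub_one_le (s : Finset ι) (c : ι → ℂ) (hc : ∀ i, ‖c i‖ ≤ 1) :
    ‖∏ i ∈ s, c i - 1‖ ≤ ∑ i ∈ s, ‖c i - 1‖ := by
  classical
  induction s using Finset.induction_on with
  | empty => simp
  | insert i s hi ih =>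
    rw [Finset.prod_insert hi, Finset.sum_insert hi]
    have : c i * ∏ j ∈ s, c j - 1 = (c i - 1) * ∏ j ∈ s, c j + (∏ j ∈ s, c j - 1) := by ring
    rw [this]
    refine (norm_add_le _ _).trans ?_
    apply add_le_add _ ih
    rw [norm_mul]
    exact mul_le_of_le_one_right (norm_nonneg _) (norm_prod_le_one s c hc)

lemma norm_bprod_sub_one_le (ha : ∀ i, ‖a i‖ < 1) (hs : Summable fun i => 1 - ‖a i‖)
    {z : ℂ} (hz : ‖z‖ < 1) :
    ‖bprod a z - 1‖ ≤ (1 + ‖z‖) / (1 - ‖z‖) * ∑' i, (1 - ‖a i‖) := by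
  have h := ((hasProd_bprod ha hs hz).sub_const 1).norm
  have h := (tendsto_id.comp (hasProd_bprod ha hs hz)).sub_const (1:ℂ)
  have h2 := h.norm
  refine le_of_tendsto h2 (Eventually.of_forall fun s => ?_)
  simp only [Function.comp_apply, id_eq]
  have hz1 : 0 < 1 - ‖z‖ := by linarith
  have hc : 0 ≤ (1 + ‖z‖) / (1 - ‖z‖) := by positivity
  calc ‖∏ i ∈ s, blaschkeFactor (a i) z - 1‖
      ≤ ∑ i ∈ s, ‖blaschkeFactor (a i) z - 1‖ :=
        norm_prod_sub_one_le s _ (fun i => (norm_blaschkeFactor_lt (ha i) hz).le)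
    _ ≤ ∑ i ∈ s, (1 + ‖z‖) / (1 - ‖z‖) * (1 - ‖a i‖) :=
        Finset.sum_le_sum fun i _ => norm_one_sub_blaschkeFactor_le (ha i) hz
    _ = (1 + ‖z‖) / (1 - ‖z‖) * ∑ i ∈ s, (1 - ‖a i‖) := by rw [Finset.mul_sum]
    _ ≤ (1 + ‖z‖) / (1 - ‖z‖) * ∑' i, (1 - ‖a i‖) := by
        apply mul_le_mul_of_nonneg_left _ hc
        exact hs.sum_le_tsum s (fun i _ => by linarith [ha i])

/-- Splitting off finitely many factors. -/
lemma bprod_split (ha : ∀ i, ‖a i‖ < 1) (hs : Summable fun i => 1 - ‖a i‖)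
    (s : Finset ι) {z : ℂ} (hz : ‖z‖ < 1) :
    bprod a z = (∏ i ∈ s, blaschkeFactor (a i) z) * bprod (fun i : {i // i ∉ s} => a i) z := by
  have h1 : HasProd ((fun i => blaschkeFactor (a i) z) ∘ (Subtype.val : ↥(s : Set ι) → ι))
      (∏ i ∈ s, blaschkeFactor (a i) z) := by
    exact Finset.hasProd s _
  have h2 : HasProd ((fun i => blaschkeFactor (a i) z) ∘ (Subtype.val : ↥((s : Set ι)ᶜ : Set ι) → ι))
      (bprod (fun i : {i // i ∉ s} => a i) z) := by
    exact hasProd_bprod (a := fun i : {i // i ∉ s} => a i) (fun i => ha i)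
      (hs.subtype _) hz
  exact (h1.mul_compl h2).tprod_eq

lemma bprod_apply_zero (ha : ∀ i, ‖a i‖ < 1) (hs : Summable fun i => 1 - ‖a i‖) (i : ι) :
    bprod a (a i) = 0 := by
  classical
  rw [bprod_split ha hs {i} (ha i)]
  simp [blaschkeFactor_self]

end

end Pool.Agent.QP_fa6e01
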