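import Mathlib
import Pool.Agent.QP_fa6e01.BlaschkeProd

set_option autoImplicit false

open Complex Metric Set Filter Real Topology ComplexConjugate

namespace Pool.Agent.QP_fa6e01

lemma one_sub_sum_le_prod {ι : Type*} (s : Finset ι) (c : ι → ℝ) (h0 : ∀ i, 0 ≤ c i)
    (h1 : ∀ i, c i ≤ 1) : 1 - ∑ i ∈ s, (1 - c i) ≤ ∏ i ∈ s, c i := by
  classical
  induction s using Finset.induction_on with
  | empty => simp
  | insert i s hi ih =>
    rw [Finset.prod_insert hi, Finset.sum_insert hi]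
    have h3 : ∏ j ∈ s, c j ≤ 1 := Finset.prod_le_one (fun j _ => h0 j) (fun j _ => h1 j)
    have h4 : 0 ≤ 1 - c i := by linarith [h1 i]
    nlinarith [mul_le_mul_of_nonneg_left h3 h4]

lemma norm_circleAverage_le {f : ℂ → ℂ} {c : ℂ} {R : ℝ} :
    ‖circleAverage f c R‖ ≤ circleAverage (fun z => ‖f z‖) c R := by
  rw [circleAverage_def, circleAverage_def, norm_smul, norm_inv, Real.norm_of_nonneg two_pi_pos.le,
    smul_eq_mul]
  apply mul_le_mul_of_nonneg_left _ (by positivity)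
  exact intervalIntegral.norm_integral_le_integral_norm two_pi_pos.le

lemma mapsTo_mob {a : ℂ} (ha : ‖a‖ < 1) : MapsTo (mob a) (ball 0 1) (ball 0 1) := by
  intro z hz
  rw [mem_ball_zero_iff] at *
  exact norm_mob_lt ha hz

lemma continuousOn_comp_mob_sphere {f : ℂ → ℂ} {z₀ : ℂ} (hz₀ : ‖z₀‖ < 1) {r : ℝ} (hr0 : 0 ≤ r)
    (hr : r < 1) (hf : ContinuousOn f (ball 0 1)) :
    ContinuousOn (fun ζ => f (mob z₀ ζ)) (sphere 0 |r|) := by
  have h1 : ContinuousOn (fun ζ => f (mob z₀ ζ)) (ball 0 1) :=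
    hf.comp (differentiableOn_mob hz₀).continuousOn (mapsTo_mob hz₀)
  apply h1.mono
  intro x hx
  rw [abs_of_nonneg hr0] at hx
  simp only [mem_sphere_iff_norm, sub_zero] at hx
  rw [mem_ball_zero_iff, hx]
  exact hr

/-- A Blaschke product is inner, in the following averaged sense on the circles
`mob z₀ (|ζ| = r)`. -/
lemma inner_bprod {ι : Type*} {a : ι → ℂ} (ha : ∀ i, ‖a i‖ < 1)
    (hs : Summable fun i => 1 - ‖a i‖) {z₀ : ℂ} (hz₀ : ‖z₀‖ < 1) {ε : ℝ} (hε : 0 < ε) :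
    ∃ r₀ < 1, ∀ r, r₀ < r → 0 ≤ r → r < 1 →
      circleAverage (fun ζ => 1 - ‖bprod a (mob z₀ ζ)‖) 0 r ≤ ε := by
  set C : ℝ := (1 + ‖z₀‖) / (1 - ‖z₀‖) with hC
  have h1z : 0 < 1 - ‖z₀‖ := by linarith
  have hCpos : 0 < C := by positivity
  -- choose the finite set `s`
  obtain ⟨s, hsC⟩ : ∃ s : Finset ι, C * ∑' i : {i // i ∉ s}, (1 - ‖a i‖) ≤ ε / 2 := by
    have h1 := tendsto_tsum_compl_atTop_zero (fun i => 1 - ‖a i‖)
    have h2 := (h1.const_mul C)
    rw [mul_zero] at h2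
    obtain ⟨s, hs⟩ := ((tendsto_order.1 h2).2 (ε / 2) (by positivity)).exists
    exact ⟨s, hs.le⟩
  set t : ℂ → ℂ := bprod (fun i : {i // i ∉ s} => a i) with ht
  have hta : ∀ i : {i // i ∉ s}, ‖a i‖ < 1 := fun i => ha i
  have hts : Summable (fun i : {i // i ∉ s} => 1 - ‖a i‖) := hs.subtype _
  have htd : DifferentiableOn ℂ t (ball 0 1) := differentiableOn_bprod hta hts
  have htz : ‖t z₀ - 1‖ ≤ ε / 2 := (norm_bprod_sub_one_le hta hts hz₀).trans hsC
  -- the constant for the finite product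
  set K : ℝ := ∑ i ∈ s, (1 + ‖a i‖) / (1 - ‖a i‖) * (2 * C) with hK
  have hK0 : 0 ≤ K := by
    apply Finset.sum_nonneg
    intro i _
    have := ha i
    have h3 : 0 < 1 - ‖a i‖ := by linarith
    positivity
  have hfin : ∀ w : ℂ, ‖w‖ < 1 → 1 - ∏ i ∈ s, ‖blaschkeFactor (a i) w‖ ≤
      ∑ i ∈ s, (1 + ‖a i‖) / (1 - ‖a i‖) * (1 - ‖w‖ ^ 2) := by
    intro w hw
    have h2 := one_sub_sum_le_prod s (fun i => ‖blaschkeFactor (a i) w‖)
      (fun i => norm_nonneg _) (fun i => (norm_blaschkeFactor_lt (ha i) hw).le)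
    have h3 : ∑ i ∈ s, (1 - ‖blaschkeFactor (a i) w‖) ≤
        ∑ i ∈ s, (1 + ‖a i‖) / (1 - ‖a i‖) * (1 - ‖w‖ ^ 2) := by
      apply Finset.sum_le_sum
      intro i _
      rw [norm_blaschkeFactor]
      exact one_sub_norm_mob_le (ha i) hw.le
    linarith
  refine ⟨1 - ε / (4 * (K + 1)), by
    have : 0 < ε / (4 * (K + 1)) := by positivity
    linarith, ?_⟩
  intro r hr hr0 hr1
  have hKr : K * (1 - r ^ 2) ≤ ε / 2 := by
    have h1 : 1 - r < ε / (4 * (K + 1)) := by linarith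
    have h2 : 1 - r ^ 2 ≤ 2 * (1 - r) := by nlinarith
    have h3 : (1 - r) * (4 * (K + 1)) < ε := by
      rwa [lt_div_iff₀ (by positivity)] at h1
    nlinarith
  have hpt : ∀ ζ ∈ sphere (0:ℂ) |r|, 1 - ‖bprod a (mob z₀ ζ)‖ ≤ 1 + ε / 2 - ‖t (mob z₀ ζ)‖ := by
    intro ζ hζ
    rw [abs_of_nonneg hr0] at hζ
    have hζr : ‖ζ‖ = r := by simpa using hζ
    have hζ1 : ‖ζ‖ < 1 := by rw [hζr]; exact hr1
    have hw : ‖mob z₀ ζ‖ < 1 := norm_mob_lt hz₀ hζ1
    have hw2 : 1 - ‖mob z₀ ζ‖ ^ 2 ≤ 2 * C * (1 - r ^ 2) := by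
      have h1 := one_sub_norm_mob_le hz₀ hζ1.le
      rw [hζr, ← hC] at h1
      nlinarith [norm_nonneg (mob z₀ ζ)]
    have h2 := hfin _ hw
    have h3 : ∑ i ∈ s, (1 + ‖a i‖) / (1 - ‖a i‖) * (1 - ‖mob z₀ ζ‖ ^ 2) ≤ K * (1 - r ^ 2) := by
      rw [hK, Finset.sum_mul]
      apply Finset.sum_le_sum
      intro i _
      have h5 : 0 ≤ (1 + ‖a i‖) / (1 - ‖a i‖) := by
        have := ha i
        have h3 : 0 < 1 - ‖a i‖ := by linarith
        positivity
      calc (1 + ‖a i‖) / (1 - ‖a i‖) * (1 - ‖mob z₀ ζ‖ ^ 2)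
          ≤ (1 + ‖a i‖) / (1 - ‖a i‖) * (2 * C * (1 - r ^ 2)) :=
            mul_le_mul_of_nonneg_left hw2 h5
        _ = (1 + ‖a i‖) / (1 - ‖a i‖) * (2 * C) * (1 - r ^ 2) := by ring
    have h4 : 1 - ε / 2 ≤ ∏ i ∈ s, ‖blaschkeFactor (a i) (mob z₀ ζ)‖ := by linarith
    rw [bprod_split ha hs s hw, norm_mul, norm_prod]
    have h6 : ‖t (mob z₀ ζ)‖ ≤ 1 := norm_bprod_le_one hta hts hw
    have h7 := norm_nonneg (t (mob z₀ ζ))
    rw [← ht]
    nlinarith
  have hint1 : CircleIntegrable (fun ζ => 1 - ‖bprod a (mob z₀ ζ)‖) 0 r := by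
    apply ContinuousOn.circleIntegrable'
    exact continuousOn_const.sub
      (continuousOn_comp_mob_sphere hz₀ hr0 hr1 (differentiableOn_bprod ha hs).continuousOn).norm
  have hint3 : CircleIntegrable (fun ζ => ‖t (mob z₀ ζ)‖) 0 r := by
    apply ContinuousOn.circleIntegrable'
    exact (continuousOn_comp_mob_sphere hz₀ hr0 hr1 htd.continuousOn).norm
  have hint2 : CircleIntegrable (fun ζ => 1 + ε / 2 - ‖t (mob z₀ ζ)‖) 0 r := by
    apply ContinuousOn.circleIntegrable'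
    exact continuousOn_const.sub
      (continuousOn_comp_mob_sphere hz₀ hr0 hr1 htd.continuousOn).norm
  have hmean : circleAverage (fun ζ => t (mob z₀ ζ)) 0 r = t z₀ := by
    have h1 : DiffContOnCl ℂ (fun ζ => t (mob z₀ ζ)) (ball 0 |r|) := by
      have h2 : DifferentiableOn ℂ (fun ζ => t (mob z₀ ζ)) (ball 0 1) :=
        htd.comp (differentiableOn_mob hz₀) (mapsTo_mob hz₀)
      apply DifferentiableOn.diffContOnCl
      apply h2.mono
      intro x hx
      have := closure_ball_subset_closedBall hx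
      rw [mem_closedBall_zero_iff, abs_of_nonneg hr0] at this
      rw [mem_ball_zero_iff]
      exact this.trans_lt hr1
    have h3 := h1.circleAverage
    rw [h3, mob_zero]
  calc circleAverage (fun ζ => 1 - ‖bprod a (mob z₀ ζ)‖) 0 r
      ≤ circleAverage (fun ζ => 1 + ε / 2 - ‖t (mob z₀ ζ)‖) 0 r :=
        circleAverage_mono hint1 hint2 hpt
    _ = 1 + ε / 2 - circleAverage (fun ζ => ‖t (mob z₀ ζ)‖) 0 r := by
        have h1 : CircleIntegrable (fun _ : ℂ => 1 + ε / 2) 0 r := circleIntegrable_const _ _ _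
        rw [circleAverage_fun_sub h1 hint3, circleAverage_const]
    _ ≤ 1 + ε / 2 - ‖t z₀‖ := by
        have h1 := norm_circleAverage_le (f := fun ζ => t (mob z₀ ζ)) (c := 0) (R := r)
        rw [hmean] at h1
        linarith
    _ ≤ ε := by
        have h1 : ‖(1:ℂ)‖ - ‖t z₀‖ ≤ ‖1 - t z₀‖ := norm_sub_norm_le _ _
        rw [norm_one, norm_sub_rev] at h1
        linarith

end Pool.Agent.QP_fa6e01
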