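import Mathlib
import Pool.Agent.QP_fa6e01.Inner

set_option autoImplicit false

open Complex Metric Set Filter Real Topology ComplexConjugate MeasureTheory
open scoped ENNReal

namespace Pool.Agent.QP_fa6e01

/-- Parametrisation of the circle of radius `1/2`. -/
noncomputable def etaMap (s : ℝ) : ℂ := circleMap 0 (1 / 2) s

lemma norm_etaMap (s : ℝ) : ‖etaMap s‖ = 1 / 2 := by
  simp [etaMap, norm_circleMap_zero]

lemma norm_etaMap_lt (s : ℝ) : ‖etaMap s‖ < 1 := by
  rw [norm_etaMap]; norm_num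

/-- The kernel `- log |mob η ω|` for `η = etaMap s`, with value `∞` at `ω = η`. -/
noncomputable def frostKernel (ω : ℂ) (s : ℝ) : ℝ≥0∞ :=
  if etaMap s = ω then ⊤ else ENNReal.ofReal (-Real.log ‖mob (etaMap s) ω‖)

lemma measurable_etaMap : Measurable etaMap := (continuous_circleMap 0 (1 / 2)).measurable

lemma measurable_frostKernel {G : ℝ → ℂ} (hG : Measurable G) :
    Measurable (fun p : ℝ × ℝ => frostKernel (G p.1) p.2) := by
  unfold frostKernel
  apply Measurable.ite
  · exact measurableSet_eq_fun (measurable_etaMap.comp measurable_snd) (hG.comp measurable_fst)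
  · exact measurable_const
  · unfold mob
    have h1 : Measurable (fun p : ℝ × ℝ => etaMap p.2) := measurable_etaMap.comp measurable_snd
    have h2 : Measurable (fun p : ℝ × ℝ => G p.1) := hG.comp measurable_fst
    have h3 : Measurable (fun p : ℝ × ℝ => conj (etaMap p.2)) :=
      (Complex.continuous_conj.measurable).comp h1
    apply Measurable.ennreal_ofReal
    apply Measurable.neg
    apply Real.measurable_log.comp
    apply Measurable.norm
    exact (h1.sub h2).div ((measurable_const (a := (1:ℂ))).sub (h3.mul h2))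

lemma measurable_frostKernel' {G : ℝ → ℂ} (hG : Measurable G) :
    Measurable (Function.uncurry (fun s t : ℝ => frostKernel (G t) s)) := by
  have h : (Function.uncurry (fun s t : ℝ => frostKernel (G t) s)) =
      (fun p : ℝ × ℝ => frostKernel (G p.1) p.2) ∘ Prod.swap := by
    ext ⟨s, t⟩
    rfl
  rw [h]
  exact (measurable_frostKernel hG).comp measurable_swap

lemma measurable_frostKernel_left {G : ℝ → ℂ} (hG : Measurable G) (s : ℝ) :
    Measurable (fun t : ℝ => frostKernel (G t) s) := by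
  have h : (fun t : ℝ => frostKernel (G t) s) =
      (fun p : ℝ × ℝ => frostKernel (G p.1) p.2) ∘ (fun t => (t, s)) := by
    ext t
    rfl
  rw [h]
  exact (measurable_frostKernel hG).comp (measurable_id.prodMk measurable_const)

lemma aux_log_bound {x : ℝ} (hx0 : 0 ≤ x) (hx : x < 1) :
    -(Real.log (1 / 2) + log⁺ (2 * x)) ≤ 2 * (1 - x) := by
  rcases le_or_gt (2 * x) 1 with h | h
  · have h1 : log⁺ (2 * x) = 0 := by
      rw [posLog_eq_zero_iff, abs_of_nonneg (by linarith)]
      exact h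
    rw [h1, add_zero, one_div, Real.log_inv, neg_neg]
    have := Real.log_two_lt_d9
    linarith
  · have hx2 : 0 < x := by linarith
    have h1 : log⁺ (2 * x) = Real.log (2 * x) := by
      apply posLog_eq_log
      rw [abs_of_nonneg (by linarith)]
      exact h.le
    rw [h1, ← Real.log_mul (by norm_num) (by positivity)]
    have h2 : 1 / 2 * (2 * x) = x := by ring
    rw [h2]
    have h3 := Real.one_sub_inv_le_log_of_pos hx2
    have h4 : x⁻¹ - 1 ≤ 2 * (1 - x) := by
      rw [inv_eq_one_div, div_sub_one hx2.ne', div_le_iff₀ hx2]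
      nlinarith
    linarith

lemma lintegral_frostKernel_le {ω : ℂ} (hω : ‖ω‖ < 1) :
    ∫⁻ s in Ioc 0 (2 * π), frostKernel ω s ≤ ENNReal.ofReal (4 * π * (1 - ‖ω‖)) := by
  set g : ℂ → ℝ := fun η => Real.log ‖1 - conj ω * η‖ - Real.log ‖η - ω‖ with hg
  have hae : ∀ᵐ s ∂(volume.restrict (Ioc 0 (2 * π))), etaMap s ≠ ω := by
    apply ae_restrict_of_ae
    have h1 : (circleMap 0 (1 / 2) ⁻¹' {ω}).Countable :=
      (countable_singleton ω).preimage_circleMap 0 (by norm_num)
    have h2 := h1.measure_zero volume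
    rw [← compl_mem_ae_iff] at h2
    filter_upwards [h2] with s hs
    exact hs
  have hg0 : ∀ s : ℝ, etaMap s ≠ ω → -Real.log ‖mob (etaMap s) ω‖ = g (circleMap 0 (1 / 2) s) := by
    intro s hs
    have h0 := one_sub_ne_zero (norm_etaMap_lt s) hω
    rw [hg]
    simp only
    rw [mob, norm_div, Real.log_div (norm_ne_zero_iff.mpr (sub_ne_zero.mpr hs))
      (norm_ne_zero_iff.mpr h0)]
    have h1 : ‖1 - conj (etaMap s) * ω‖ = ‖1 - conj ω * circleMap 0 (1 / 2) s‖ := by
      rw [← RCLike.norm_conj (1 - conj (etaMap s) * ω)]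
      congr 1
      simp [etaMap]
      ring
    rw [h1]
    simp only [etaMap]
    ring
  have hci1 : CircleIntegrable (fun η => Real.log ‖1 - conj ω * η‖) 0 (1 / 2) :=
    MeromorphicOn.circleIntegrable_log_norm (fun z hz => by fun_prop)
  have hci2 : CircleIntegrable (fun η => Real.log ‖η - ω‖) 0 (1 / 2) :=
    MeromorphicOn.circleIntegrable_log_norm (fun z hz => by fun_prop)
  have hci : CircleIntegrable g 0 (1 / 2) := hci1.sub hci2
  have hint : Integrable (fun s => g (circleMap 0 (1 / 2) s))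
      (volume.restrict (Ioc 0 (2 * π))) := by
    have := hci
    rw [CircleIntegrable, intervalIntegrable_iff_integrableOn_Ioc_of_le two_pi_pos.le] at this
    exact this
  have hnn : 0 ≤ᵐ[volume.restrict (Ioc 0 (2 * π))] fun s => g (circleMap 0 (1 / 2) s) := by
    filter_upwards [hae] with s hs
    simp only [Pi.zero_apply]
    rw [← hg0 s hs, neg_nonneg]
    apply Real.log_nonpos (norm_nonneg _)
    exact (norm_mob_lt (norm_etaMap_lt s) hω).le
  have h1 : ∫⁻ s in Ioc 0 (2 * π), frostKernel ω s =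
      ∫⁻ s in Ioc 0 (2 * π), ENNReal.ofReal (g (circleMap 0 (1 / 2) s)) := by
    apply lintegral_congr_ae
    filter_upwards [hae] with s hs
    rw [frostKernel, if_neg hs, hg0 s hs]
  rw [h1, ← ofReal_integral_eq_lintegral_ofReal hint hnn]
  apply ENNReal.ofReal_le_ofReal
  have h2 : ∫ s in Ioc 0 (2 * π), g (circleMap 0 (1 / 2) s) = 2 * π * circleAverage g 0 (1 / 2) := by
    rw [circleAverage_def, smul_eq_mul, intervalIntegral.integral_of_le two_pi_pos.le,
      ← mul_assoc, mul_inv_cancel₀ two_pi_pos.ne', one_mul]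
  have h3 : circleAverage g 0 (1 / 2) = -(Real.log (1 / 2) + log⁺ (2 * ‖ω‖)) := by
    rw [hg, circleAverage_fun_sub hci1 hci2]
    have h4 : circleAverage (fun η => Real.log ‖1 - conj ω * η‖) 0 (1 / 2) = 0 := by
      have h5 := AnalyticOnNhd.circleAverage_log_norm_of_ne_zero (R := 1 / 2) (c := 0)
        (g := fun η => 1 - conj ω * η) (fun z _ => by fun_prop) (by
          intro u hu
          apply one_sub_ne_zero hω
          rw [mem_closedBall_zero_iff] at hu
          have : |(1/2:ℝ)| < 1 := by rw [abs_of_pos] <;> norm_num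
          exact hu.trans_lt this)
      simpa using h5
    have h6 : circleAverage (fun η => Real.log ‖η - ω‖) 0 (1 / 2) =
        Real.log (1 / 2) + log⁺ (2 * ‖ω‖) := by
      have h7 := circleAverage_log_norm_sub_const_eq_log_radius_add_posLog (a := ω) (c := 0)
        (R := 1 / 2) (by norm_num)
      rw [h7]
      simp
    rw [h4, h6]
    ring
  rw [h2, h3]
  have h4 := aux_log_bound (norm_nonneg ω) hω
  have h5 : (0:ℝ) < 2 * π := two_pi_pos
  calc 2 * π * -(Real.log (1 / 2) + log⁺ (2 * ‖ω‖)) ≤ 2 * π * (2 * (1 - ‖ω‖)) :=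
        mul_le_mul_of_nonneg_left h4 h5.le
    _ = 4 * π * (1 - ‖ω‖) := by ring

lemma lintegral_lintegral_frostKernel_le {G : ℝ → ℂ} (hG : Measurable G)
    (hG1 : ∀ t, ‖G t‖ < 1) :
    ∫⁻ s in Ioc 0 (2 * π), ∫⁻ t in Ioc 0 (2 * π), frostKernel (G t) s ≤
      ENNReal.ofReal (4 * π) * ∫⁻ t in Ioc 0 (2 * π), ENNReal.ofReal (1 - ‖G t‖) := by
  rw [lintegral_lintegral_swap]
  · rw [← lintegral_const_mul]
    · apply lintegral_mono
      intro t
      refine (lintegral_frostKernel_le (hG1 t)).trans ?_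
      rw [ENNReal.ofReal_mul (by positivity)]
    · exact (measurable_const.sub hG.norm).ennreal_ofReal
  · exact (measurable_frostKernel' hG).aemeasurable

/-- The averaged Frostman lemma. -/
lemma frostman {G G' : ℕ → ℝ → ℂ} (hG : ∀ n, Measurable (G n)) (hG1 : ∀ n t, ‖G n t‖ < 1)
    (hG' : ∀ n, Measurable (G' n)) (hG1' : ∀ n t, ‖G' n t‖ < 1)
    (hlim : Tendsto (fun n => ∫⁻ t in Ioc 0 (2 * π), ENNReal.ofReal (1 - ‖G n t‖)) atTop (𝓝 0))
    (hlim' : Tendsto (fun n => ∫⁻ t in Ioc 0 (2 * π), ENNReal.ofReal (1 - ‖G' n t‖)) atTop (𝓝 0)) :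
    ∀ᵐ s ∂(volume.restrict (Ioc 0 (2 * π))),
      liminf (fun n => (∫⁻ t in Ioc 0 (2 * π), frostKernel (G n t) s) +
        ∫⁻ t in Ioc 0 (2 * π), frostKernel (G' n t) s) atTop = 0 := by
  have hm : ∀ n, Measurable (fun s => ∫⁻ t in Ioc 0 (2 * π), frostKernel (G n t) s) := by
    intro n
    exact (measurable_frostKernel' (hG n)).lintegral_prod_right
  have hm' : ∀ n, Measurable (fun s => ∫⁻ t in Ioc 0 (2 * π), frostKernel (G' n t) s) := by
    intro n
    exact (measurable_frostKernel' (hG' n)).lintegral_prod_right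
  set F : ℕ → ℝ → ℝ≥0∞ := fun n s => (∫⁻ t in Ioc 0 (2 * π), frostKernel (G n t) s) +
        ∫⁻ t in Ioc 0 (2 * π), frostKernel (G' n t) s with hF
  have hFm : ∀ n, Measurable (F n) := fun n => (hm n).add (hm' n)
  have hbound : ∀ n, ∫⁻ s in Ioc 0 (2 * π), F n s ≤
      ENNReal.ofReal (4 * π) * (∫⁻ t in Ioc 0 (2 * π), ENNReal.ofReal (1 - ‖G n t‖)) +
      ENNReal.ofReal (4 * π) * (∫⁻ t in Ioc 0 (2 * π), ENNReal.ofReal (1 - ‖G' n t‖)) := by
    intro n
    rw [hF]
    simp only
    rw [lintegral_add_left (hm n)]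
    exact add_le_add (lintegral_lintegral_frostKernel_le (hG n) (hG1 n))
      (lintegral_lintegral_frostKernel_le (hG' n) (hG1' n))
  have hzero : Tendsto (fun n => ∫⁻ s in Ioc 0 (2 * π), F n s) atTop (𝓝 0) := by
    apply tendsto_of_tendsto_of_tendsto_of_le_of_le tendsto_const_nhds _ (fun _ => bot_le) hbound
    have h1 := (ENNReal.Tendsto.const_mul hlim (Or.inr ENNReal.ofReal_ne_top)
      (a := ENNReal.ofReal (4 * π)))
    have h2 := (ENNReal.Tendsto.const_mul hlim' (Or.inr ENNReal.ofReal_ne_top)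
      (a := ENNReal.ofReal (4 * π)))
    rw [mul_zero] at h1 h2
    simpa using h1.add h2
  have hfatou := lintegral_liminf_le (μ := volume.restrict (Ioc 0 (2 * π))) (u := atTop) hFm
  rw [hzero.liminf_eq] at hfatou
  have h0 : ∫⁻ s in Ioc 0 (2 * π), liminf (fun n => F n s) atTop = 0 :=
    le_antisymm hfatou bot_le
  rw [lintegral_eq_zero_iff (Measurable.liminf hFm)] at h0
  exact h0

end Pool.Agent.QP_fa6e01
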