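import Mathlib
import Pool.Agent.QP_fa6e01.Frostman

set_option autoImplicit false

open Complex Metric Set Filter Real Topology ComplexConjugate MeasureTheory
open scoped ENNReal

namespace Pool.Agent.QP_fa6e01

/-- The mean value inequality for `log |f|`. -/
lemma log_norm_le_circleAverage {f : ℂ → ℂ} {R : ℝ} (hR : 0 < R)
    (hf : AnalyticOnNhd ℂ f (closedBall 0 R)) (h0 : f 0 ≠ 0) :
    Real.log ‖f 0‖ ≤ circleAverage (fun z => Real.log ‖f z‖) 0 R := by
  have hf' : AnalyticOnNhd ℂ f (closedBall 0 |R|) := by rwa [abs_of_pos hR]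
  have h1 := AnalyticOnNhd.circleAverage_log_norm hR.ne' hf' h0
  have h2 : 0 ≤ ∑ᶠ u, MeromorphicOn.divisor f (closedBall 0 |R|) u * Real.log (R * ‖0 - u‖⁻¹) := by
    apply finsum_nonneg
    intro u
    by_cases hu : u ∈ closedBall 0 |R|
    · apply mul_nonneg
      · exact_mod_cast (MeromorphicOn.AnalyticOnNhd.divisor_nonneg hf') u
      · rw [abs_of_pos hR, mem_closedBall_zero_iff] at hu
        rw [zero_sub, norm_neg]
        by_cases hu0 : u = 0
        · simp [hu0]
        · apply Real.log_nonneg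
          rw [← div_eq_mul_inv, one_le_div (norm_pos_iff.mpr hu0)]
          exact hu
    · rw [Function.locallyFinsuppWithin.apply_eq_zero_of_notMem _ hu]
      simp
  rw [h1]
  linarith

lemma analyticOnNhd_comp_mob {S : ℂ → ℂ} (hS : DifferentiableOn ℂ S (ball 0 1)) {z₀ : ℂ}
    (hz₀ : ‖z₀‖ < 1) {r : ℝ} (hr : r < 1) :
    AnalyticOnNhd ℂ (fun ζ => S (mob z₀ ζ)) (closedBall 0 r) := by
  have h2 : DifferentiableOn ℂ (fun ζ => S (mob z₀ ζ)) (ball 0 1) :=
    hS.comp (differentiableOn_mob hz₀) (mapsTo_mob hz₀)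
  exact (h2.analyticOnNhd isOpen_ball).mono (closedBall_subset_ball hr)

/-- If `log |S|` on the circles `mob z₀ (|ζ| = r n)` is at most `log C + k E n` with `E n` of
small integral along a subsequence, then `|S z₀| ≤ C`. -/
lemma norm_le_of_liminf {S : ℂ → ℂ} (hS : DifferentiableOn ℂ S (ball 0 1)) {z₀ : ℂ}
    (hz₀ : ‖z₀‖ < 1) {C : ℝ} (hC : 0 < C) {k : ℝ} (hk : 0 ≤ k) {r : ℕ → ℝ}
    (hr0 : ∀ n, 0 < r n) (hr1 : ∀ n, r n < 1) {E : ℕ → ℝ → ℝ≥0∞} (hE : ∀ n, Measurable (E n))
    (hlim : liminf (fun n => ∫⁻ t in Ioc 0 (2 * π), E n t) atTop = 0)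
    (hb : ∀ n t, E n t ≠ ⊤ →
      Real.log ‖S (mob z₀ (circleMap 0 (r n) t))‖ ≤ Real.log C + k * (E n t).toReal) :
    ‖S z₀‖ ≤ C := by
  by_contra hcon
  push Not at hcon
  have hS0 : S z₀ ≠ 0 := norm_pos_iff.mp (hC.trans hcon)
  have hgap : 0 < Real.log ‖S z₀‖ - Real.log C := by
    have := Real.log_lt_log hC hcon
    linarith
  set gap := Real.log ‖S z₀‖ - Real.log C with hgapdef
  -- choose `n` with small integral
  set ε : ℝ := gap * (2 * π) / (k + 1) with hε
  have hεpos : 0 < ε := by positivity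
  have hfreq : ∃ᶠ n in atTop, ∫⁻ t in Ioc 0 (2 * π), E n t < ENNReal.ofReal ε := by
    apply frequently_lt_of_liminf_lt (by isBoundedDefault)
    rw [hlim]
    exact ENNReal.ofReal_pos.mpr hεpos
  obtain ⟨n, hn⟩ := hfreq.exists
  have hfin : ∫⁻ t in Ioc 0 (2 * π), E n t ≠ ⊤ := (hn.trans ENNReal.ofReal_lt_top).ne
  have hae : ∀ᵐ t ∂(volume.restrict (Ioc 0 (2 * π))), E n t < ⊤ :=
    ae_lt_top (hE n) hfin
  have hjensen : Real.log ‖S z₀‖ ≤
      circleAverage (fun ζ => Real.log ‖S (mob z₀ ζ)‖) 0 (r n) := by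
    have h1 := log_norm_le_circleAverage (hr0 n) (analyticOnNhd_comp_mob hS hz₀ (hr1 n))
      (by simpa [mob_zero] using hS0)
    simpa [mob_zero] using h1
  have hint1 : CircleIntegrable (fun ζ => Real.log ‖S (mob z₀ ζ)‖) 0 (r n) := by
    apply MeromorphicOn.circleIntegrable_log_norm
    have h1 := (analyticOnNhd_comp_mob hS hz₀ (hr1 n)).meromorphicOn
    intro z hz
    apply h1
    rw [abs_of_pos (hr0 n)] at hz
    exact sphere_subset_closedBall hz
  have hint2 : Integrable (fun t => (E n t).toReal) (volume.restrict (Ioc 0 (2 * π))) :=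
    integrable_toReal_of_lintegral_ne_top (hE n).aemeasurable hfin
  have hint3 : Integrable (fun t => Real.log C + k * (E n t).toReal)
      (volume.restrict (Ioc 0 (2 * π))) :=
    (integrable_const _).add (hint2.const_mul k)
  have hle : circleAverage (fun ζ => Real.log ‖S (mob z₀ ζ)‖) 0 (r n) ≤
      (2 * π)⁻¹ * ∫ t in Ioc 0 (2 * π), (Real.log C + k * (E n t).toReal) := by
    rw [circleAverage_def, smul_eq_mul, intervalIntegral.integral_of_le two_pi_pos.le]
    apply mul_le_mul_of_nonneg_left _ (by positivity)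
    apply integral_mono_ae _ hint3
    · filter_upwards [hae] with t ht
      exact hb n t ht.ne
    · have := hint1
      rw [CircleIntegrable, intervalIntegrable_iff_integrableOn_Ioc_of_le two_pi_pos.le] at this
      exact this
  have hval : ∫ t in Ioc 0 (2 * π), (Real.log C + k * (E n t).toReal) =
      2 * π * Real.log C + k * (∫⁻ t in Ioc 0 (2 * π), E n t).toReal := by
    rw [integral_add (integrable_const _) (hint2.const_mul k), integral_const_mul,
      integral_toReal (hE n).aemeasurable hae]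
    simp [two_pi_pos.le]
  have hsmall : (∫⁻ t in Ioc 0 (2 * π), E n t).toReal < ε := by
    rw [← ENNReal.toReal_ofReal hεpos.le]
    exact (ENNReal.toReal_lt_toReal hfin ENNReal.ofReal_ne_top).mpr hn
  have h2pi := two_pi_pos
  rw [hval] at hle
  have h1 : (2 * π)⁻¹ * (2 * π * Real.log C + k * (∫⁻ t in Ioc 0 (2 * π), E n t).toReal) =
      Real.log C + k * (∫⁻ t in Ioc 0 (2 * π), E n t).toReal / (2 * π) := by
    field_simp
  rw [h1] at hle
  have h2 : k * (∫⁻ t in Ioc 0 (2 * π), E n t).toReal / (2 * π) < gap := by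
    rw [div_lt_iff₀ h2pi]
    have h3 : k * (∫⁻ t in Ioc 0 (2 * π), E n t).toReal ≤ k * ε :=
      mul_le_mul_of_nonneg_left hsmall.le hk
    have h4 : k * ε < gap * (2 * π) := by
      rw [hε, ← mul_div_assoc, div_lt_iff₀ (by positivity)]
      have : 0 < gap * (2 * π) := by positivity
      nlinarith
    linarith
  linarith

end Pool.Agent.QP_fa6e01
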