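import Mathlib
import Pool.Agent.QP_fa6e01.Disc

set_option autoImplicit false

open Complex Metric Set Filter Real Topology ComplexConjugate MeasureTheory
open scoped ENNReal

namespace Pool.Agent.QP_fa6e01

/-- radii tending to one -/
noncomputable def rad (n : ℕ) : ℝ := 1 - 1 / ((n : ℝ) + 2)

lemma rad_lt_one (n : ℕ) : rad n < 1 := by
  have : (0:ℝ) < 1 / ((n : ℝ) + 2) := by positivity
  unfold rad; linarith

lemma rad_pos (n : ℕ) : 0 < rad n := by
  have : 1 / ((n : ℝ) + 2) < 1 := by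
    rw [div_lt_one (by positivity)]
    have : (0:ℝ) ≤ n := Nat.cast_nonneg n
    linarith
  unfold rad; linarith

lemma tendsto_rad : Tendsto rad atTop (𝓝 1) := by
  have h1 : Tendsto (fun n : ℕ => 1 / ((n : ℝ) + 2)) atTop (𝓝 0) := by
    have := (tendsto_one_div_add_atTop_nhds_zero_nat (𝕜 := ℝ)).comp (tendsto_add_atTop_nat 1)
    apply this.congr
    intro n
    simp only [Function.comp_apply]
    push_cast
    ring
  have h2 := h1.const_sub (1:ℝ)
  rw [sub_zero] at h2
  exact h2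

/-- The function `z ↦ z * mob (1/2) (e * w z)` where `w z ^ 2 = B z` is the principal root. -/
noncomputable def Om (B : ℂ → ℂ) (e z : ℂ) : ℂ := z * mob (1 / 2) (e * (B z) ^ (1 / 2 : ℂ))

lemma cpow_half_sq (w : ℂ) : (w ^ (1 / 2 : ℂ)) ^ 2 = w := by
  rw [← Complex.cpow_nat_mul]
  norm_num

lemma norm_cpow_half_sq (w : ℂ) : ‖w ^ (1 / 2 : ℂ)‖ ^ 2 = ‖w‖ := by
  rw [← norm_pow, cpow_half_sq]

lemma norm_half : ‖(1 / 2 : ℂ)‖ = 1 / 2 := by norm_num

lemma norm_half_lt : ‖(1 / 2 : ℂ)‖ < 1 := by rw [norm_half]; norm_num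

lemma norm_Om_lt {B : ℂ → ℂ} {e z : ℂ} (he : ‖e‖ = 1) (hz : ‖z‖ < 1) (hB : ‖B z‖ < 1) :
    ‖Om B e z‖ < 1 := by
  have h1 : ‖e * (B z) ^ (1 / 2 : ℂ)‖ < 1 := by
    rw [norm_mul, he, one_mul]
    have := norm_cpow_half_sq (B z)
    by_contra hcon
    push Not at hcon
    nlinarith
  have h2 := norm_mob_lt norm_half_lt h1
  rw [Om, norm_mul]
  nlinarith [norm_nonneg z, norm_nonneg (mob (1 / 2) (e * (B z) ^ (1 / 2 : ℂ)))]

lemma one_sub_norm_Om_le {B : ℂ → ℂ} {e z : ℂ} (he : ‖e‖ = 1) (hz : ‖z‖ < 1) (hB : ‖B z‖ < 1) :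
    1 - ‖Om B e z‖ ≤ (1 - ‖z‖) + 3 * (1 - ‖B z‖) := by
  have h0 := norm_cpow_half_sq (B z)
  have h1 : ‖e * (B z) ^ (1 / 2 : ℂ)‖ < 1 := by
    rw [norm_mul, he, one_mul]
    by_contra hcon
    push Not at hcon
    nlinarith
  have h2 := norm_mob_lt norm_half_lt h1
  have h3 := one_sub_norm_mob_le norm_half_lt h1.le
  rw [norm_mul, he, one_mul, h0, norm_half] at h3
  rw [Om, norm_mul]
  have h4 : (1 + 1 / 2 : ℝ) / (1 - 1 / 2) = 3 := by norm_num
  rw [h4] at h3
  nlinarith [norm_nonneg z, norm_nonneg (mob (1 / 2) (e * (B z) ^ (1 / 2 : ℂ)))]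

section

variable {B : ℂ → ℂ}

lemma circleMap_mem {z₀ : ℂ} (hz₀ : ‖z₀‖ < 1) {r : ℝ} (hr0 : 0 < r) (hr : r < 1) (t : ℝ) :
    ‖mob z₀ (circleMap 0 r t)‖ < 1 := by
  apply norm_mob_lt hz₀
  rw [norm_circleMap_zero, abs_of_pos hr0]
  exact hr

lemma continuous_mob_circle {z₀ : ℂ} (hz₀ : ‖z₀‖ < 1) {r : ℝ} (hr0 : 0 < r) (hr : r < 1) :
    Continuous (fun t : ℝ => mob z₀ (circleMap 0 r t)) := by
  have h1 : ContinuousOn (mob z₀) (ball 0 1) := (differentiableOn_mob hz₀).continuousOn
  apply h1.comp_continuous (continuous_circleMap 0 r)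
  intro t
  rw [mem_ball_zero_iff, norm_circleMap_zero, abs_of_pos hr0]
  exact hr

lemma measurable_Om_circle (hBc : ContinuousOn B (ball 0 1)) (e : ℂ) {z₀ : ℂ} (hz₀ : ‖z₀‖ < 1)
    {r : ℝ} (hr0 : 0 < r) (hr : r < 1) :
    Measurable (fun t : ℝ => Om B e (mob z₀ (circleMap 0 r t))) := by
  have h1 := continuous_mob_circle hz₀ hr0 hr
  have h2 : Continuous (fun t : ℝ => B (mob z₀ (circleMap 0 r t))) := by
    apply hBc.comp_continuous h1
    intro t
    rw [mem_ball_zero_iff]
    exact circleMap_mem hz₀ hr0 hr t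
  have h3 : Measurable (fun t : ℝ => (B (mob z₀ (circleMap 0 r t))) ^ (1 / 2 : ℂ)) :=
    h2.measurable.pow_const _
  have h4 : Measurable (fun t : ℝ => e * (B (mob z₀ (circleMap 0 r t))) ^ (1 / 2 : ℂ)) :=
    h3.const_mul e
  unfold Om mob
  unfold mob at h1 h3 h4
  exact h1.measurable.mul ((measurable_const.sub h4).div
    (measurable_const.sub (measurable_const.mul h4)))

/-- The averages of `1 - |Om|` over the circles tend to zero. -/
lemma tendsto_lintegral_Om {ι : Type*} {a : ι → ℂ} (ha : ∀ i, ‖a i‖ < 1)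
    (hs : Summable fun i => 1 - ‖a i‖) (hB : ∀ z, ‖z‖ < 1 → ‖B z‖ = ‖bprod a z‖)
    (hB1 : ∀ z, ‖z‖ < 1 → ‖B z‖ < 1) {e : ℂ} (he : ‖e‖ = 1) {z₀ : ℂ} (hz₀ : ‖z₀‖ < 1) :
    Tendsto (fun n => ∫⁻ t in Ioc 0 (2 * π),
      ENNReal.ofReal (1 - ‖Om B e (mob z₀ (circleMap 0 (rad n) t))‖)) atTop (𝓝 0) := by
  set C : ℝ := (1 + ‖z₀‖) / (1 - ‖z₀‖) with hC
  have h1z : 0 < 1 - ‖z₀‖ := by linarith
  have hCpos : 0 < C := by positivity
  -- the averages of `1 - |B|`
  set A : ℕ → ℝ := fun n => circleAverage (fun ζ => 1 - ‖bprod a (mob z₀ ζ)‖) 0 (rad n) with hA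
  have hA0 : ∀ n, 0 ≤ A n := by
    intro n
    apply circleAverage_nonneg_of_nonneg
    intro ζ hζ
    rw [abs_of_pos (rad_pos n)] at hζ
    have hζ1 : ‖ζ‖ < 1 := by
      have : ‖ζ‖ = rad n := by simpa using hζ
      rw [this]; exact rad_lt_one n
    have := norm_bprod_le_one ha hs (norm_mob_lt hz₀ hζ1)
    linarith
  have hAlim : Tendsto A atTop (𝓝 0) := by
    rw [Metric.tendsto_atTop]
    intro ε hε
    obtain ⟨r₀, hr₀, hr⟩ := inner_bprod ha hs hz₀ (half_pos hε)
    have h2 := (tendsto_rad.eventually (lt_mem_nhds hr₀))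
    obtain ⟨N, hN⟩ := eventually_atTop.mp h2
    refine ⟨N, fun n hn => ?_⟩
    have h3 := hr (rad n) (hN n hn) (rad_pos n).le (rad_lt_one n)
    rw [Real.dist_eq, sub_zero, abs_of_nonneg (hA0 n)]
    exact lt_of_le_of_lt h3 (half_lt_self hε)
  -- the pointwise bound
  have hbound : ∀ n, ∫⁻ t in Ioc 0 (2 * π),
      ENNReal.ofReal (1 - ‖Om B e (mob z₀ (circleMap 0 (rad n) t))‖) ≤
      ENNReal.ofReal (2 * π * (C * (1 - rad n ^ 2) + 3 * A n)) := by
    intro n
    have hr0 := rad_pos n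
    have hr1 := rad_lt_one n
    have hcont : Continuous (fun t : ℝ => C * (1 - rad n ^ 2) +
        3 * (1 - ‖bprod a (mob z₀ (circleMap 0 (rad n) t))‖)) := by
      have h2 : Continuous (fun t : ℝ => bprod a (mob z₀ (circleMap 0 (rad n) t))) := by
        apply (differentiableOn_bprod ha hs).continuousOn.comp_continuous
          (continuous_mob_circle hz₀ hr0 hr1)
        intro t
        rw [mem_ball_zero_iff]
        exact circleMap_mem hz₀ hr0 hr1 t
      exact continuous_const.add (continuous_const.mul (continuous_const.sub h2.norm))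
    have h1 : ∀ t : ℝ, 1 - ‖Om B e (mob z₀ (circleMap 0 (rad n) t))‖ ≤ C * (1 - rad n ^ 2) +
        3 * (1 - ‖bprod a (mob z₀ (circleMap 0 (rad n) t))‖) := by
      intro t
      have hz := circleMap_mem hz₀ hr0 hr1 t
      have h2 := one_sub_norm_Om_le he hz (hB1 _ hz)
      rw [hB _ hz] at h2
      have h3 : 1 - ‖mob z₀ (circleMap 0 (rad n) t)‖ ≤ C * (1 - rad n ^ 2) := by
        have h4 : ‖circleMap 0 (rad n) t‖ = rad n := by
          rw [norm_circleMap_zero, abs_of_pos hr0]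
        have h5 := one_sub_norm_mob_le hz₀ (z := circleMap 0 (rad n) t) (by rw [h4]; exact hr1.le)
        rw [h4] at h5
        exact h5
      linarith
    calc ∫⁻ t in Ioc 0 (2 * π),
          ENNReal.ofReal (1 - ‖Om B e (mob z₀ (circleMap 0 (rad n) t))‖)
        ≤ ∫⁻ t in Ioc 0 (2 * π), ENNReal.ofReal (C * (1 - rad n ^ 2) +
            3 * (1 - ‖bprod a (mob z₀ (circleMap 0 (rad n) t))‖)) :=
          lintegral_mono fun t => ENNReal.ofReal_le_ofReal (h1 t)
      _ = ENNReal.ofReal (∫ t in Ioc 0 (2 * π), (C * (1 - rad n ^ 2) +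
            3 * (1 - ‖bprod a (mob z₀ (circleMap 0 (rad n) t))‖))) := by
          rw [ofReal_integral_eq_lintegral_ofReal]
          · exact (hcont.integrableOn_Ioc)
          · refine Eventually.of_forall fun t => ?_
            simp only [Pi.zero_apply]
            have h3 := norm_bprod_le_one ha hs (circleMap_mem hz₀ hr0 hr1 t)
            have h4 : 0 ≤ C * (1 - rad n ^ 2) := by
              apply mul_nonneg hCpos.le
              nlinarith
            linarith
      _ = ENNReal.ofReal (2 * π * (C * (1 - rad n ^ 2) + 3 * A n)) := by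
          congr 1
          rw [← intervalIntegral.integral_of_le two_pi_pos.le]
          have h5 : Continuous (fun t : ℝ => 1 - ‖bprod a (mob z₀ (circleMap 0 (rad n) t))‖) := by
            have h2 : Continuous (fun t : ℝ => bprod a (mob z₀ (circleMap 0 (rad n) t))) := by
              apply (differentiableOn_bprod ha hs).continuousOn.comp_continuous
                (continuous_mob_circle hz₀ hr0 hr1)
              intro t
              rw [mem_ball_zero_iff]
              exact circleMap_mem hz₀ hr0 hr1 t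
            exact continuous_const.sub h2.norm
          have h6 : Continuous
              (fun t : ℝ => 3 * (1 - ‖bprod a (mob z₀ (circleMap 0 (rad n) t))‖)) :=
            continuous_const.mul h5
          rw [intervalIntegral.integral_add (by simp) (h6.intervalIntegrable _ _),
            intervalIntegral.integral_const, intervalIntegral.integral_const_mul, hA]
          simp only [circleAverage_def, smul_eq_mul, sub_zero]
          have h2pi : (2 * π : ℝ) ≠ 0 := two_pi_pos.ne'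
          field_simp
  apply tendsto_of_tendsto_of_tendsto_of_le_of_le tendsto_const_nhds _ (fun _ => bot_le) hbound
  have h1 : Tendsto (fun n => 2 * π * (C * (1 - rad n ^ 2) + 3 * A n)) atTop (𝓝 0) := by
    have h2 : Tendsto (fun n => 2 * π * (C * (1 - rad n ^ 2) + 3 * A n)) atTop
        (𝓝 (2 * π * (C * (1 - 1 ^ 2) + 3 * 0))) :=
      (((tendsto_rad.pow 2).const_sub 1).const_mul C |>.add (hAlim.const_mul 3)).const_mul _
    simpa using h2
  have h2 := ENNReal.tendsto_ofReal h1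
  simpa using h2

end

end Pool.Agent.QP_fa6e01
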