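import Mathlib
import Pool.Agent.QP_fa6e01.Defs

set_option autoImplicit false

open Complex Metric Set Filter Topology
open scoped Manifold ContDiff

namespace Pool.Agent.QP_fa6e01

/-! ### Plane lemmas -/

/-- Local inverse of an analytic function at a point with nonzero derivative. -/
lemma exists_local_inverse {f : ℂ → ℂ} {t₀ : ℂ} (hf : AnalyticAt ℂ f t₀) (h0 : deriv f t₀ ≠ 0) :
    ∃ g : ℂ → ℂ, g (f t₀) = t₀ ∧ AnalyticAt ℂ g (f t₀) ∧ (∀ᶠ z in 𝓝 (f t₀), f (g z) = z) ∧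
      (∀ᶠ t in 𝓝 t₀, g (f t) = t) := by
  have hcd : ContDiffAt ℂ ω f t₀ := hf.contDiffAt
  have hd : HasDerivAt f (deriv f t₀) t₀ := hf.differentiableAt.hasDerivAt
  have hfd : HasFDerivAt f ((ContinuousLinearEquiv.unitsEquivAut ℂ (Units.mk0 _ h0) :
      ℂ ≃L[ℂ] ℂ) : ℂ →L[ℂ] ℂ) t₀ := hd.hasFDerivAt_equiv h0
  have hn : (ω : WithTop ℕ∞) ≠ 0 := by simp
  have hst := hcd.hasStrictFDerivAt' hfd hn
  refine ⟨hcd.localInverse hfd hn, hcd.localInverse_apply_image hfd hn, ?_, ?_, ?_⟩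
  · have := hcd.to_localInverse hfd hn
    rwa [← contDiffWithinAt_univ, contDiffWithinAt_omega_iff_analyticWithinAt,
      analyticWithinAt_univ] at this
  · exact hst.eventually_right_inverse
  · exact hst.eventually_left_inverse

/-- An analytic function vanishing to order exactly two is at most two-to-one nearby. -/
lemma two_to_one_of_order_two {f : ℂ → ℂ} {t₀ : ℂ} (hf : AnalyticAt ℂ f t₀)
    (h2 : analyticOrderAt f t₀ = 2) :
    ∃ U ∈ 𝓝 t₀, ∀ t₁ ∈ U, ∀ t₂ ∈ U, ∀ t₃ ∈ U, f t₁ = f t₂ → f t₂ = f t₃ →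
      t₁ = t₂ ∨ t₁ = t₃ ∨ t₂ = t₃ := by
  have h2' : analyticOrderAt f t₀ = ((2 : ℕ) : ℕ∞) := h2
  obtain ⟨h, hh, hh0, hfh⟩ := (hf.analyticOrderAt_eq_natCast (n := 2)).mp h2'
  set c : ℂ := (h t₀) ^ (1 / 2 : ℂ) with hc
  have hc2 : c ^ 2 = h t₀ := by
    rw [hc, ← Complex.cpow_nat_mul]
    norm_num
  have hc0 : c ≠ 0 := by
    intro h0
    rw [h0] at hc2
    exact hh0 (by rw [← hc2]; norm_num)
  set κ : ℂ → ℂ := fun t => (t - t₀) * (c * Complex.exp (Complex.log (h t / h t₀) / 2)) with hκ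
  have hslit : h t₀ / h t₀ ∈ Complex.slitPlane := by
    rw [div_self hh0]; exact Complex.one_mem_slitPlane
  have hκa : AnalyticAt ℂ κ t₀ := by
    have h1 : AnalyticAt ℂ (fun t => h t / h t₀) t₀ := hh.div analyticAt_const hh0
    have h2 : AnalyticAt ℂ (fun t => Complex.log (h t / h t₀)) t₀ := h1.clog hslit
    have h3 : AnalyticAt ℂ (fun t => Complex.exp (Complex.log (h t / h t₀) / 2)) t₀ :=
      (h2.div analyticAt_const (by norm_num)).cexp
    exact (analyticAt_id.sub analyticAt_const).mul (analyticAt_const.mul h3)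
  have hκd : deriv κ t₀ = c := by
    have h1 : AnalyticAt ℂ (fun t => h t / h t₀) t₀ := hh.div analyticAt_const hh0
    have h2 : AnalyticAt ℂ (fun t => Complex.log (h t / h t₀)) t₀ := h1.clog hslit
    have h3 : AnalyticAt ℂ (fun t => c * Complex.exp (Complex.log (h t / h t₀) / 2)) t₀ :=
      analyticAt_const.mul ((h2.div analyticAt_const (by norm_num)).cexp)
    have h4 := ((hasDerivAt_id t₀).sub_const t₀).mul h3.differentiableAt.hasDerivAt
    have h5 := h4.deriv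
    simp only [id_eq, sub_self, zero_mul, add_zero, one_mul, div_self hh0, Complex.log_one,
      zero_div, Complex.exp_zero, mul_one] at h5
    rw [hκ]
    exact h5
  obtain ⟨g, -, -, -, hg⟩ := exists_local_inverse hκa (by rw [hκd]; exact hc0)
  have hsq : ∀ᶠ t in 𝓝 t₀, f t = κ t ^ 2 := by
    have hne : ∀ᶠ t in 𝓝 t₀, h t ≠ 0 := hh.continuousAt.eventually_ne hh0
    filter_upwards [hfh, hne] with t ht hne
    rw [ht, hκ]
    simp only [smul_eq_mul]
    have h1 : (c * Complex.exp (Complex.log (h t / h t₀) / 2)) ^ 2 = h t := by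
      rw [mul_pow, hc2, ← Complex.exp_nat_mul]
      have : ((2:ℕ):ℂ) * (Complex.log (h t / h t₀) / 2) = Complex.log (h t / h t₀) := by
        push_cast; ring
      rw [this, Complex.exp_log (div_ne_zero hne hh0)]
      field_simp
    rw [mul_pow, h1]
  refine ⟨{t | g (κ t) = t ∧ f t = κ t ^ 2}, hg.and hsq, ?_⟩
  rintro t₁ ⟨h1, h1'⟩ t₂ ⟨h2, h2'⟩ t₃ ⟨h3, h3'⟩ h12 h23
  rw [h1', h2', sq_eq_sq_iff_eq_or_eq_neg] at h12
  rw [h2', h3', sq_eq_sq_iff_eq_or_eq_neg] at h23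
  rcases h12 with h12 | h12
  · left; rw [← h1, h12, h2]
  · rcases h23 with h23 | h23
    · right; right; rw [← h2, h23, h3]
    · right; left
      rw [← h1, h12, h23, neg_neg, h3]

/-! ### Charts -/

section Charts

variable {X : Type*} [TopologicalSpace X] [ChartedSpace ℂ X] [IsManifold 𝓘(ℂ) ω X]

lemma differentiableOn_comp_chart {f : X → ℂ} (hf : MDifferentiable 𝓘(ℂ) 𝓘(ℂ) f) (x : X) :
    DifferentiableOn ℂ (f ∘ (chartAt ℂ x).symm) (chartAt ℂ x).target := by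
  intro t ht
  have h1 : MDifferentiableAt 𝓘(ℂ) 𝓘(ℂ) (chartAt ℂ x).symm t :=
    mdifferentiableAt_atlas_symm (chart_mem_atlas ℂ x) ht
  have h2 := (hf ((chartAt ℂ x).symm t)).comp t h1
  rw [mdifferentiableAt_iff_differentiableAt] at h2
  exact h2.differentiableWithinAt

lemma analyticAt_comp_chart {f : X → ℂ} (hf : MDifferentiable 𝓘(ℂ) 𝓘(ℂ) f) (x : X) {t : ℂ}
    (ht : t ∈ (chartAt ℂ x).target) : AnalyticAt ℂ (f ∘ (chartAt ℂ x).symm) t :=
  (differentiableOn_comp_chart hf x).analyticAt ((chartAt ℂ x).open_target.mem_nhds ht)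

lemma analyticAt_comp_chart_self {f : X → ℂ} (hf : MDifferentiable 𝓘(ℂ) 𝓘(ℂ) f) (x : X) :
    AnalyticAt ℂ (f ∘ (chartAt ℂ x).symm) (chartAt ℂ x x) :=
  analyticAt_comp_chart hf x (mem_chart_target ℂ x)

lemma mfderiv_eq_fderiv_chart {f : X → ℂ} (hf : MDifferentiable 𝓘(ℂ) 𝓘(ℂ) f) (x : X) :
    mfderiv 𝓘(ℂ) 𝓘(ℂ) f x = fderiv ℂ (f ∘ (chartAt ℂ x).symm) (chartAt ℂ x x) := by
  have h1 := (hf x).mfderiv
  simp only [mfld_simps, fderivWithin_univ] at h1
  exact h1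

lemma mfderiv_eq_zero_iff {f : X → ℂ} (hf : MDifferentiable 𝓘(ℂ) 𝓘(ℂ) f) (x : X) :
    mfderiv 𝓘(ℂ) 𝓘(ℂ) f x = 0 ↔ deriv (f ∘ (chartAt ℂ x).symm) (chartAt ℂ x x) = 0 := by
  rw [mfderiv_eq_fderiv_chart hf x]
  constructor
  · intro h
    have h' : fderiv ℂ (f ∘ (chartAt ℂ x).symm) (chartAt ℂ x x) = 0 := h
    rw [← fderiv_apply_one_eq_deriv, h']
    rfl
  · intro h
    have : fderiv ℂ (f ∘ (chartAt ℂ x).symm) (chartAt ℂ x x) = 0 := by
      rw [← toSpanSingleton_deriv, h]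
      simp
    exact this

end Charts

end Pool.Agent.QP_fa6e01
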