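import Mathlib
import Pool.Agent.QP_fa6e01.Charts

set_option autoImplicit false

open Complex Metric Set Filter Topology
open scoped Manifold ContDiff

namespace Pool.Agent.QP_fa6e01

section Local

variable {X : Type*} [TopologicalSpace X] [ChartedSpace ℂ X] [IsManifold 𝓘(ℂ) ω X]

/-- Local holomorphic section of `φ` at a noncritical point. -/
lemma local_section {φ : X → ℂ} (hφ : MDifferentiable 𝓘(ℂ) 𝓘(ℂ) φ) {x₀ : X}
    (h0 : x₀ ∉ crit φ) :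
    ∃ G : ℂ → X, G (φ x₀) = x₀ ∧ Tendsto G (𝓝 (φ x₀)) (𝓝 x₀) ∧
      (∀ᶠ z in 𝓝 (φ x₀), φ (G z) = z) ∧ (∀ᶠ x in 𝓝 x₀, G (φ x) = x) ∧
      ∀ F : X → ℂ, MDifferentiable 𝓘(ℂ) 𝓘(ℂ) F → AnalyticAt ℂ (F ∘ G) (φ x₀) := by
  set c := chartAt ℂ x₀ with hc
  have hx₀ : x₀ ∈ c.source := mem_chart_source ℂ x₀
  have hct : c x₀ ∈ c.target := mem_chart_target ℂ x₀
  have hcs : c.symm (c x₀) = x₀ := c.left_inv hx₀
  have ha := analyticAt_comp_chart_self hφ x₀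
  rw [← hc] at ha
  have hval : (φ ∘ c.symm) (c x₀) = φ x₀ := by simp [hcs]
  have hd : deriv (φ ∘ c.symm) (c x₀) ≠ 0 := by
    intro h
    exact h0 ((mfderiv_eq_zero_iff hφ x₀).mpr h)
  obtain ⟨g, hg1, hg2, hg3, hg4⟩ := exists_local_inverse ha hd
  rw [hval] at hg1 hg2 hg3
  have hgt : Tendsto g (𝓝 (φ x₀)) (𝓝 (c x₀)) := by
    have := hg2.continuousAt.tendsto
    rwa [hg1] at this
  refine ⟨c.symm ∘ g, ?_, ?_, ?_, ?_, ?_⟩
  · simp [hg1, hcs]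
  · have h1 : Tendsto c.symm (𝓝 (c x₀)) (𝓝 x₀) := by
      have := (c.continuousAt_symm hct).tendsto
      rwa [hcs] at this
    exact h1.comp hgt
  · exact hg3
  · have h1 : Tendsto c (𝓝 x₀) (𝓝 (c x₀)) := c.continuousAt hx₀
    have h2 : ∀ᶠ x in 𝓝 x₀, x ∈ c.source := c.open_source.mem_nhds hx₀
    filter_upwards [h1.eventually hg4, h2] with x hx hxs
    simp only [Function.comp_apply] at hx ⊢
    rw [c.left_inv hxs] at hx
    rw [hx, c.left_inv hxs]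
  · intro F hF
    have h1 := analyticAt_comp_chart_self hF x₀
    rw [← hc, ← hg1] at h1
    exact h1.comp hg2

/-- `φ` is injective near a noncritical point. -/
lemma locally_injective {φ : X → ℂ} (hφ : MDifferentiable 𝓘(ℂ) 𝓘(ℂ) φ) {x₀ : X}
    (h0 : x₀ ∉ crit φ) : ∃ U ∈ 𝓝 x₀, InjOn φ U := by
  obtain ⟨G, -, -, -, h4, -⟩ := local_section hφ h0
  refine ⟨{x | G (φ x) = x}, h4, ?_⟩
  intro x hx y hy hxy
  rw [← hx, hxy, hy]

/-- A nonempty open subset of a Riemann surface is infinite. -/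
lemma infinite_of_mem_nhds' {x₀ : X} {U : Set X} (hU : U ∈ 𝓝 x₀) : U.Infinite := by
  intro hfin
  set c := chartAt ℂ x₀ with hc
  have hx₀ : x₀ ∈ c.source := mem_chart_source ℂ x₀
  have hct : c x₀ ∈ c.target := mem_chart_target ℂ x₀
  have hcs : c.symm (c x₀) = x₀ := c.left_inv hx₀
  have h1 : Tendsto c.symm (𝓝 (c x₀)) (𝓝 x₀) := by
    have := (c.continuousAt_symm hct).tendsto
    rwa [hcs] at this
  have h2 : {t | t ∈ c.target ∧ c.symm t ∈ U} ∈ 𝓝 (c x₀) :=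
    Filter.inter_mem (c.open_target.mem_nhds hct) (h1 hU)
  have h3 : {t | t ∈ c.target ∧ c.symm t ∈ U}.Infinite := infinite_of_mem_nhds (c x₀) h2
  apply h3
  apply (hfin.image c).subset
  rintro t ⟨ht, htU⟩
  exact ⟨c.symm t, htU, c.right_inv ht⟩

/-- `φ` is open at every point, if it has locally finite critical set. -/
lemma open_at {φ : X → ℂ} (hφ : MDifferentiable 𝓘(ℂ) 𝓘(ℂ) φ) (hφ1 : ∀ x, ‖φ x‖ < 1)
    (hfin : ∀ r < 1, {x | x ∈ crit φ ∧ ‖φ x‖ ≤ r}.Finite) (x₀ : X) :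
    𝓝 (φ x₀) ≤ map φ (𝓝 x₀) := by
  set c := chartAt ℂ x₀ with hc
  have hx₀ : x₀ ∈ c.source := mem_chart_source ℂ x₀
  have hct : c x₀ ∈ c.target := mem_chart_target ℂ x₀
  have hcs : c.symm (c x₀) = x₀ := c.left_inv hx₀
  have ha := analyticAt_comp_chart_self hφ x₀
  rw [← hc] at ha
  have h1 : Tendsto c.symm (𝓝 (c x₀)) (𝓝 x₀) := by
    have := (c.continuousAt_symm hct).tendsto
    rwa [hcs] at this
  rcases ha.eventually_constant_or_nhds_le_map_nhds with h | h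
  · -- eventually constant: impossible
    exfalso
    have h2 : Tendsto c (𝓝 x₀) (𝓝 (c x₀)) := c.continuousAt hx₀
    have h3 : ∀ᶠ x in 𝓝 x₀, φ x = φ x₀ := by
      have h4 : ∀ᶠ x in 𝓝 x₀, x ∈ c.source := c.open_source.mem_nhds hx₀
      filter_upwards [h2.eventually h, h4] with x hx hxs
      simpa [c.left_inv hxs, hcs] using hx
    have h5 : ∀ᶠ x in 𝓝 x₀, x ∈ crit φ ∧ ‖φ x‖ ≤ ‖φ x₀‖ := by
      filter_upwards [h3.eventually_nhds, h3] with x hx hx'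
      constructor
      · have : φ =ᶠ[𝓝 x] fun _ => φ x₀ := hx
        show mfderiv 𝓘(ℂ) 𝓘(ℂ) φ x = 0
        rw [this.mfderiv_eq]
        exact mfderiv_const
      · rw [hx']
    exact infinite_of_mem_nhds' h5 (hfin _ (hφ1 x₀))
  · have h2 : (φ ∘ c.symm) (c x₀) = φ x₀ := by simp [hcs]
    rw [h2, ← Filter.map_map] at h
    exact h.trans (Filter.map_mono h1)

/-- The set of critical values. -/
def critVal (φ : X → ℂ) : Set ℂ := φ '' crit φ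

lemma critVal_finite {φ : X → ℂ}
    (hfin : ∀ r < 1, {x | x ∈ crit φ ∧ ‖φ x‖ ≤ r}.Finite) {r : ℝ} (hr : r < 1) :
    (critVal φ ∩ closedBall 0 r).Finite := by
  apply ((hfin r hr).image φ).subset
  rintro z ⟨⟨x, hx, rfl⟩, hz⟩
  exact ⟨x, ⟨hx, by simpa using hz⟩, rfl⟩

lemma eventually_notMem_critVal {φ : X → ℂ}
    (hfin : ∀ r < 1, {x | x ∈ crit φ ∧ ‖φ x‖ ≤ r}.Finite) {z₀ : ℂ} (hz₀ : ‖z₀‖ < 1) :
    ∀ᶠ z in 𝓝[≠] z₀, z ∉ critVal φ := by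
  obtain ⟨r, hr1, hr2⟩ := exists_between hz₀
  have h1 := critVal_finite hfin hr2
  have h2 : ((critVal φ ∩ closedBall 0 r) \ {z₀})ᶜ ∈ 𝓝 z₀ := by
    apply (h1.subset sdiff_subset).isClosed.isOpen_compl.mem_nhds
    simp
  have h3 : closedBall (0:ℂ) r ∈ 𝓝 z₀ := closedBall_mem_nhds_of_mem (by simpa using hr1)
  filter_upwards [mem_nhdsWithin_of_mem_nhds h2, mem_nhdsWithin_of_mem_nhds h3,
    self_mem_nhdsWithin] with z hz1 hz2 hz3 hz4
  exact hz1 ⟨⟨hz4, hz2⟩, hz3⟩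

lemma critVal_countable {φ : X → ℂ} (hφ1 : ∀ x, ‖φ x‖ < 1)
    (hfin : ∀ r < 1, {x | x ∈ crit φ ∧ ‖φ x‖ ≤ r}.Finite) : (critVal φ).Countable := by
  have h1 : critVal φ ⊆ ⋃ n : ℕ, (critVal φ ∩ closedBall 0 (1 - 1 / ((n : ℝ) + 1))) := by
    rintro z hz
    obtain ⟨x, hx, rfl⟩ := hz
    have h2 := hφ1 x
    obtain ⟨n, hn⟩ := exists_nat_one_div_lt (show (0:ℝ) < 1 - ‖φ x‖ by linarith)
    rw [mem_iUnion]
    refine ⟨n, ⟨x, hx, rfl⟩, ?_⟩
    rw [mem_closedBall_zero_iff]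
    linarith
  apply Countable.mono h1
  apply countable_iUnion
  intro n
  apply (critVal_finite hfin _).countable
  have : (0:ℝ) < 1 / ((n : ℝ) + 1) := by positivity
  linarith

/-- The disc minus the critical values. -/
def regVal (φ : X → ℂ) : Set ℂ := ball 0 1 \ critVal φ

lemma regVal_mem_nhds {φ : X → ℂ}
    (hfin : ∀ r < 1, {x | x ∈ crit φ ∧ ‖φ x‖ ≤ r}.Finite) {z₀ : ℂ} (hz₀ : z₀ ∈ regVal φ) :
    regVal φ ∈ 𝓝 z₀ := by
  have h1 : ‖z₀‖ < 1 := by simpa using hz₀.1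
  have h2 := eventually_notMem_critVal hfin h1
  rw [eventually_nhdsWithin_iff] at h2
  have h3 : ball (0:ℂ) 1 ∈ 𝓝 z₀ := isOpen_ball.mem_nhds hz₀.1
  filter_upwards [h2, h3] with z hz hz'
  refine ⟨hz', ?_⟩
  by_cases h : z = z₀
  · rw [h]; exact hz₀.2
  · exact hz h

lemma regVal_mem_nhdsWithin {φ : X → ℂ}
    (hfin : ∀ r < 1, {x | x ∈ crit φ ∧ ‖φ x‖ ≤ r}.Finite) {z₀ : ℂ} (hz₀ : ‖z₀‖ < 1) :
    ∀ᶠ z in 𝓝[≠] z₀, z ∈ regVal φ := by
  have h3 : ball (0:ℂ) 1 ∈ 𝓝 z₀ := isOpen_ball.mem_nhds (by simpa using hz₀)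
  filter_upwards [eventually_notMem_critVal hfin hz₀, mem_nhdsWithin_of_mem_nhds h3] with z h1 h2
  exact ⟨h2, h1⟩

lemma isPreconnected_regVal {φ : X → ℂ} (hφ1 : ∀ x, ‖φ x‖ < 1)
    (hfin : ∀ r < 1, {x | x ∈ crit φ ∧ ‖φ x‖ ≤ r}.Finite) : IsPreconnected (regVal φ) := by
  -- transport to the plane
  let e : ℂ ≃ₜ ball (0:ℂ) 1 := Homeomorph.unitBall
  have hcount : ((fun w : ℂ => ((e w : ball (0:ℂ) 1) : ℂ)) ⁻¹' (critVal φ)).Countable := by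
    apply (critVal_countable hφ1 hfin).preimage_of_injOn
    intro a _ b _ hab
    exact e.injective (Subtype.ext hab)
  have h1 := hcount.isConnected_compl_of_one_lt_rank (by simp)
  have h2 := h1.isPreconnected.image (fun w : ℂ => ((e w : ball (0:ℂ) 1) : ℂ))
    (continuous_subtype_val.comp e.continuous).continuousOn
  convert h2 using 1
  ext z
  constructor
  · rintro ⟨hz1, hz2⟩
    refine ⟨e.symm ⟨z, hz1⟩, ?_, by simp⟩
    simpa using hz2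
  · rintro ⟨w, hw, rfl⟩
    exact ⟨(e w).2, hw⟩

end Local

end Pool.Agent.QP_fa6e01
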