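import Mathlib
import Pool.Agent.QP_fa6e01.Local

set_option autoImplicit false
set_option linter.unusedSectionVars false

open Complex Metric Set Filter Topology
open scoped Manifold ContDiff

namespace Pool.Agent.QP_fa6e01

section Fibers

variable {X : Type*} [TopologicalSpace X] [ChartedSpace ℂ X]

variable [IsManifold 𝓘(ℂ) ω X]

/-- The fibre over `z` has at least three points. -/
def threePts (φ : X → ℂ) (z : ℂ) : Prop :=
  ∃ x₁ x₂ x₃, φ x₁ = z ∧ φ x₂ = z ∧ φ x₃ = z ∧ x₁ ≠ x₂ ∧ x₁ ≠ x₃ ∧ x₂ ≠ x₃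

lemma image_mem_nhds_of_open_at {φ : X → ℂ} (hφ : MDifferentiable 𝓘(ℂ) 𝓘(ℂ) φ)
    (hφ1 : ∀ x, ‖φ x‖ < 1)
    (hfin : ∀ r < 1, {x | x ∈ crit φ ∧ ‖φ x‖ ≤ r}.Finite) {x₀ : X} {U : Set X} (hU : U ∈ 𝓝 x₀) :
    φ '' U ∈ 𝓝 (φ x₀) := by
  apply open_at hφ hφ1 hfin x₀
  exact image_mem_map hU

lemma threePts_open [T2Space X] {φ : X → ℂ} (hφ : MDifferentiable 𝓘(ℂ) 𝓘(ℂ) φ)
    (hφ1 : ∀ x, ‖φ x‖ < 1)
    (hfin : ∀ r < 1, {x | x ∈ crit φ ∧ ‖φ x‖ ≤ r}.Finite) {z : ℂ} (h : threePts φ z) :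
    ∀ᶠ z' in 𝓝 z, threePts φ z' := by
  obtain ⟨x₁, x₂, x₃, h1, h2, h3, h12, h13, h23⟩ := h
  obtain ⟨U12, V12, hU12, hV12, hd12⟩ := t2_separation_nhds h12
  obtain ⟨U13, V13, hU13, hV13, hd13⟩ := t2_separation_nhds h13
  obtain ⟨U23, V23, hU23, hV23, hd23⟩ := t2_separation_nhds h23
  have hW1 := image_mem_nhds_of_open_at hφ hφ1 hfin (Filter.inter_mem hU12 hU13)
  have hW2 := image_mem_nhds_of_open_at hφ hφ1 hfin (Filter.inter_mem hV12 hU23)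
  have hW3 := image_mem_nhds_of_open_at hφ hφ1 hfin (Filter.inter_mem hV13 hV23)
  rw [h1] at hW1
  rw [h2] at hW2
  rw [h3] at hW3
  filter_upwards [hW1, hW2, hW3] with z' hz1 hz2 hz3
  obtain ⟨y₁, ⟨hy1, hy1'⟩, e1⟩ := hz1
  obtain ⟨y₂, ⟨hy2, hy2'⟩, e2⟩ := hz2
  obtain ⟨y₃, ⟨hy3, hy3'⟩, e3⟩ := hz3
  refine ⟨y₁, y₂, y₃, e1, e2, e3, ?_, ?_, ?_⟩
  · rintro rfl; exact disjoint_left.mp hd12 hy1 hy2
  · rintro rfl; exact disjoint_left.mp hd13 hy1' hy3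
  · rintro rfl; exact disjoint_left.mp hd23 hy2' hy3'

lemma threePts_limit {φ : X → ℂ} (hφ : MDifferentiable 𝓘(ℂ) 𝓘(ℂ) φ)
    (hproper : ∀ K : Set ℂ, IsCompact K → K ⊆ ball 0 1 → IsCompact (φ ⁻¹' K))
    {z₀ : ℂ} (hz₀ : ‖z₀‖ < 1) (h : ∃ᶠ z in 𝓝 z₀, threePts φ z) :
    ∃ y₁ y₂ y₃, φ y₁ = z₀ ∧ φ y₂ = z₀ ∧ φ y₃ = z₀ ∧
      ∀ U₁ ∈ 𝓝 y₁, ∀ U₂ ∈ 𝓝 y₂, ∀ U₃ ∈ 𝓝 y₃, ∃ x₁ ∈ U₁, ∃ x₂ ∈ U₂, ∃ x₃ ∈ U₃,
        φ x₁ = φ x₂ ∧ φ x₂ = φ x₃ ∧ x₁ ≠ x₂ ∧ x₁ ≠ x₃ ∧ x₂ ≠ x₃ := by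
  classical
  have hne : (𝓝 z₀ ⊓ 𝓟 {z | threePts φ z}).NeBot := frequently_mem_iff_neBot.mp h
  -- choose the three points
  have hch : ∀ z : ℂ, ∃ p : X × X × X, threePts φ z →
      φ p.1 = z ∧ φ p.2.1 = z ∧ φ p.2.2 = z ∧ p.1 ≠ p.2.1 ∧ p.1 ≠ p.2.2 ∧ p.2.1 ≠ p.2.2 := by
    intro z
    by_cases hz : threePts φ z
    · obtain ⟨x₁, x₂, x₃, h'⟩ := hz
      exact ⟨(x₁, x₂, x₃), fun _ => h'⟩
    · obtain ⟨z', x₁, -⟩ := h.exists
      exact ⟨(x₁, x₁, x₁), fun h' => absurd h' hz⟩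
  choose p hp using hch
  let u : Ultrafilter ℂ := Ultrafilter.of (𝓝 z₀ ⊓ 𝓟 {z | threePts φ z})
  have hu : (u : Filter ℂ) ≤ 𝓝 z₀ ⊓ 𝓟 {z | threePts φ z} := Ultrafilter.of_le _
  have hu1 : (u : Filter ℂ) ≤ 𝓝 z₀ := hu.trans inf_le_left
  have hu2 : ∀ᶠ z in (u : Filter ℂ), threePts φ z :=
    (hu.trans inf_le_right) (mem_principal_self _)
  -- compact neighbourhood
  obtain ⟨r, hr1, hr2⟩ := exists_between hz₀
  have hK : IsCompact (φ ⁻¹' closedBall 0 r) :=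
    hproper _ (isCompact_closedBall _ _) (closedBall_subset_ball hr2)
  have hKn : closedBall (0:ℂ) r ∈ 𝓝 z₀ := closedBall_mem_nhds_of_mem (by simpa using hr1)
  have hlim : ∀ q : ℂ → X, (∀ᶠ z in (u : Filter ℂ), φ (q z) = z) →
      ∃ y, φ y = z₀ ∧ Tendsto q u (𝓝 y) := by
    intro q hq
    have h1 : ∀ᶠ z in (u : Filter ℂ), q z ∈ φ ⁻¹' closedBall 0 r := by
      filter_upwards [hq, hu1 hKn] with z hz1 hz2
      rw [mem_preimage, hz1]
      exact hz2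
    obtain ⟨y, -, hy⟩ := hK.ultrafilter_le_nhds (u.map q) (by
      rw [le_principal_iff]
      exact h1)
    refine ⟨y, ?_, hy⟩
    have h2 : Tendsto (fun z => φ (q z)) u (𝓝 (φ y)) :=
      (hφ.continuous.continuousAt.tendsto).comp hy
    have h3 : Tendsto (fun z => φ (q z)) u (𝓝 z₀) := by
      have h4 : Tendsto (fun z : ℂ => z) u (𝓝 z₀) := hu1
      apply h4.congr'
      filter_upwards [hq] with z hz
      exact hz.symm
    exact tendsto_nhds_unique h2 h3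
  obtain ⟨y₁, hy₁, hl₁⟩ := hlim (fun z => (p z).1) (hu2.mono fun z hz => (hp z hz).1)
  obtain ⟨y₂, hy₂, hl₂⟩ := hlim (fun z => (p z).2.1) (hu2.mono fun z hz => (hp z hz).2.1)
  obtain ⟨y₃, hy₃, hl₃⟩ := hlim (fun z => (p z).2.2) (hu2.mono fun z hz => (hp z hz).2.2.1)
  refine ⟨y₁, y₂, y₃, hy₁, hy₂, hy₃, ?_⟩
  intro U₁ hU₁ U₂ hU₂ U₃ hU₃
  have ev1 : ∀ᶠ z in (u : Filter ℂ), (p z).1 ∈ U₁ := hl₁ hU₁
  have ev2 : ∀ᶠ z in (u : Filter ℂ), (p z).2.1 ∈ U₂ := hl₂ hU₂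
  have ev3 : ∀ᶠ z in (u : Filter ℂ), (p z).2.2 ∈ U₃ := hl₃ hU₃
  obtain ⟨z, hz, hz1, hz2, hz3⟩ := (hu2.and (ev1.and (ev2.and ev3))).exists
  obtain ⟨e1, e2, e3, n12, n13, n23⟩ := hp z hz
  exact ⟨_, hz1, _, hz2, _, hz3, by rw [e1, e2], by rw [e2, e3], n12, n13, n23⟩

lemma analyticAt_deriv_ne_zero_of_order_one {f : ℂ → ℂ} {t₀ : ℂ} (hf : AnalyticAt ℂ f t₀)
    (h1 : analyticOrderAt f t₀ = 1) : deriv f t₀ ≠ 0 := by
  have h1' : analyticOrderAt f t₀ = ((1 : ℕ) : ℕ∞) := h1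
  obtain ⟨h, hh, hh0, hfh⟩ := (hf.analyticOrderAt_eq_natCast (n := 1)).mp h1'
  have h2 : f =ᶠ[𝓝 t₀] fun z => (z - t₀) * h z := by
    filter_upwards [hfh] with z hz
    rw [hz]; simp
  rw [h2.deriv_eq]
  have h4 := ((hasDerivAt_id t₀).sub_const t₀).mul hh.differentiableAt.hasDerivAt
  have h5 := h4.deriv
  simp only [id_eq, sub_self, zero_mul, add_zero, one_mul] at h5
  have h6 : deriv (fun z => (z - t₀) * h z) t₀ = h t₀ := h5
  rw [h6]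
  exact hh0

lemma notMem_crit_of_order_one {φ : X → ℂ} (hφ : MDifferentiable 𝓘(ℂ) 𝓘(ℂ) φ) {x : X}
    (h : zeroOrder φ x = 1) : x ∉ crit φ := by
  intro hx
  exact analyticAt_deriv_ne_zero_of_order_one (analyticAt_comp_chart_self hφ x) h
    ((mfderiv_eq_zero_iff hφ x).mp hx)

lemma one_le_zeroOrder {φ : X → ℂ} (hφ : MDifferentiable 𝓘(ℂ) 𝓘(ℂ) φ) {x : X}
    (h : φ x = 0) : 1 ≤ zeroOrder φ x := by
  rw [Order.one_le_iff_ne_zero]
  intro h0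
  have ha := analyticAt_comp_chart_self hφ x
  have h1 := (ha.analyticOrderAt_eq_zero).mp h0
  apply h1
  simpa [(chartAt ℂ x).left_inv (mem_chart_source ℂ x)] using h

lemma two_to_one_of_zeroOrder {φ : X → ℂ} (hφ : MDifferentiable 𝓘(ℂ) 𝓘(ℂ) φ) {x : X}
    (h : zeroOrder φ x = 2) :
    ∃ U ∈ 𝓝 x, ∀ x₁ ∈ U, ∀ x₂ ∈ U, ∀ x₃ ∈ U, φ x₁ = φ x₂ → φ x₂ = φ x₃ →
      x₁ = x₂ ∨ x₁ = x₃ ∨ x₂ = x₃ := by
  set c := chartAt ℂ x with hc
  have hx₀ : x ∈ c.source := mem_chart_source ℂ x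
  obtain ⟨U, hU, hU2⟩ := two_to_one_of_order_two (analyticAt_comp_chart_self hφ x) h
  have h1 : Tendsto c (𝓝 x) (𝓝 (c x)) := c.continuousAt hx₀
  refine ⟨{y | y ∈ c.source ∧ c y ∈ U},
    Filter.inter_mem (c.open_source.mem_nhds hx₀) (h1 hU), ?_⟩
  rintro x₁ ⟨s1, u1⟩ x₂ ⟨s2, u2⟩ x₃ ⟨s3, u3⟩ h12 h23
  have key := hU2 _ u1 _ u2 _ u3
    (by
      show φ (c.symm (c x₁)) = φ (c.symm (c x₂))
      rw [c.left_inv s1, c.left_inv s2, h12])
    (by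
      show φ (c.symm (c x₂)) = φ (c.symm (c x₃))
      rw [c.left_inv s2, c.left_inv s3, h23])
  rcases key with h | h | h
  · left; rw [← c.left_inv s1, h, c.left_inv s2]
  · right; left; rw [← c.left_inv s1, h, c.left_inv s3]
  · right; right; rw [← c.left_inv s2, h, c.left_inv s3]

lemma sum_zeroOrder_le {φ : X → ℂ} (htwo : ∑ᶠ x, zeroOrder φ x = 2) (s : Finset X)
    (hs : ∀ x ∈ s, zeroOrder φ x ≠ 0) : ∑ x ∈ s, zeroOrder φ x ≤ 2 := by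
  have hfin : (Function.support (zeroOrder φ)).Finite := by
    by_contra hcon
    rw [finsum_of_infinite_support hcon] at htwo
    norm_num at htwo
  have h1 : ∑ᶠ x, zeroOrder φ x = ∑ x ∈ hfin.toFinset, zeroOrder φ x :=
    finsum_eq_sum_of_support_subset _ (by simp)
  rw [← htwo, h1]
  apply Finset.sum_le_sum_of_subset
  intro x hx
  simpa using hs x hx

/-- Over the regular values the fibres have at most two points. -/
lemma not_threePts [T2Space X] {φ : X → ℂ} (hφ : MDifferentiable 𝓘(ℂ) 𝓘(ℂ) φ)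
    (hφ1 : ∀ x, ‖φ x‖ < 1)
    (hproper : ∀ K : Set ℂ, IsCompact K → K ⊆ ball 0 1 → IsCompact (φ ⁻¹' K))
    (hfin : ∀ r < 1, {x | x ∈ crit φ ∧ ‖φ x‖ ≤ r}.Finite)
    (htwo : ∑ᶠ x, zeroOrder φ x = 2) {z : ℂ} (hz : z ∈ regVal φ) : ¬ threePts φ z := by
  intro h3
  -- the set of values with three preimages is open
  set P : Set ℂ := {z | threePts φ z} with hP
  have hPo : IsOpen P := by
    rw [isOpen_iff_mem_nhds]
    intro z hz
    exact threePts_open hφ hφ1 hfin hz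
  have hclosed : closure P ∩ regVal φ ⊆ P := by
    rintro z₀ ⟨hz1, hz2⟩
    have hz₀ : ‖z₀‖ < 1 := by simpa using hz2.1
    have hfreq : ∃ᶠ z in 𝓝 z₀, threePts φ z := mem_closure_iff_frequently.mp hz1
    obtain ⟨y₁, y₂, y₃, hy₁, hy₂, hy₃, hU⟩ := threePts_limit hφ hproper hz₀ hfreq
    have hnc : ∀ y, φ y = z₀ → y ∉ crit φ := by
      intro y hy hyc
      exact hz2.2 ⟨y, hyc, hy⟩
    refine ⟨y₁, y₂, y₃, hy₁, hy₂, hy₃, ?_, ?_, ?_⟩
    · rintro rfl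
      obtain ⟨U, hUn, hinj⟩ := locally_injective hφ (hnc _ hy₁)
      obtain ⟨x₁, h1, x₂, h2, x₃, -, e12, e23, n12, n13, n23⟩ := hU U hUn U hUn univ univ_mem
      exact n12 (hinj h1 h2 e12)
    · rintro rfl
      obtain ⟨U, hUn, hinj⟩ := locally_injective hφ (hnc _ hy₁)
      obtain ⟨x₁, h1, x₂, -, x₃, h3, e12, e23, n12, n13, n23⟩ := hU U hUn univ univ_mem U hUn
      exact n13 (hinj h1 h3 (e12.trans e23))
    · rintro rfl
      obtain ⟨U, hUn, hinj⟩ := locally_injective hφ (hnc _ hy₂)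
      obtain ⟨x₁, -, x₂, h2, x₃, h3, e12, e23, n12, n13, n23⟩ := hU univ univ_mem U hUn U hUn
      exact n23 (hinj h2 h3 e23)
  have hsub : regVal φ ⊆ P :=
    (isPreconnected_regVal hφ1 hfin).subset_of_closure_inter_subset hPo ⟨z, hz, h3⟩ hclosed
  -- look at the value `0`
  have hfreq : ∃ᶠ z in 𝓝 (0:ℂ), threePts φ z := by
    have h1 : ∀ᶠ z in 𝓝[≠] (0:ℂ), threePts φ z :=
      (regVal_mem_nhdsWithin hfin (by simp)).mono fun z hz => hsub hz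
    exact (h1.frequently).filter_mono nhdsWithin_le_nhds
  obtain ⟨y₁, y₂, y₃, hy₁, hy₂, hy₃, hU⟩ := threePts_limit hφ hproper (by simp) hfreq
  have o1 := one_le_zeroOrder hφ hy₁
  have o2 := one_le_zeroOrder hφ hy₂
  have o3 := one_le_zeroOrder hφ hy₃
  have ne0 : ∀ y, φ y = 0 → zeroOrder φ y ≠ 0 := fun y hy =>
    Order.one_le_iff_ne_zero.mp (one_le_zeroOrder hφ hy)
  -- order one or two
  have h12 : ∀ y, φ y = 0 → zeroOrder φ y = 1 ∨ zeroOrder φ y = 2 := by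
    intro y hy
    have h1 := one_le_zeroOrder hφ hy
    have h2 : zeroOrder φ y ≤ 2 := by
      have := sum_zeroOrder_le htwo {y} (by simpa using ne0 y hy)
      simpa using this
    rcases eq_or_lt_of_le h1 with h | h
    · left; exact h.symm
    · right
      apply le_antisymm h2
      have := Order.add_one_le_of_lt h
      have e : (1:ℕ∞) + 1 = 2 := by norm_num
      rwa [e] at this
  -- if the order is two there is no other zero
  have huniq : ∀ y y', φ y = 0 → φ y' = 0 → zeroOrder φ y = 2 → y' = y := by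
    classical
    intro y y' hy hy' h2
    by_contra hne
    have h3 := sum_zeroOrder_le htwo {y', y} (by
      intro x hx
      simp only [Finset.mem_insert, Finset.mem_singleton] at hx
      rcases hx with rfl | rfl
      · exact ne0 _ hy'
      · exact ne0 _ hy)
    rw [Finset.sum_pair hne, h2] at h3
    have h4 := one_le_zeroOrder hφ hy'
    have h5 : (1:ℕ∞) + 2 ≤ 2 := le_trans (by gcongr) h3
    have h6 : ((1 + 2 : ℕ) : ℕ∞) ≤ ((2 : ℕ) : ℕ∞) := by exact_mod_cast h5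
    rw [Nat.cast_le] at h6
    omega
  -- two of the three points coincide
  have hcoin : y₁ = y₂ ∨ y₁ = y₃ ∨ y₂ = y₃ := by
    classical
    by_contra hcon
    push Not at hcon
    obtain ⟨n12, n13, n23⟩ := hcon
    have h3 := sum_zeroOrder_le htwo {y₁, y₂, y₃} (by
      intro x hx
      simp only [Finset.mem_insert, Finset.mem_singleton] at hx
      rcases hx with rfl | rfl | rfl
      · exact ne0 _ hy₁
      · exact ne0 _ hy₂
      · exact ne0 _ hy₃)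
    rw [Finset.sum_insert (by simp [n12, n13]), Finset.sum_pair n23] at h3
    have h5 : (1:ℕ∞) + (1 + 1) ≤ 2 := le_trans (by gcongr) h3
    have h6 : ((1 + (1 + 1) : ℕ) : ℕ∞) ≤ ((2 : ℕ) : ℕ∞) := by exact_mod_cast h5
    rw [Nat.cast_le] at h6
    omega
  -- the case where all three coincide
  have hall : ∀ y, φ y = 0 → zeroOrder φ y = 2 → False := by
    intro y hy h2
    have e1 := huniq y y₁ hy hy₁ h2
    have e2 := huniq y y₂ hy hy₂ h2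
    have e3 := huniq y y₃ hy hy₃ h2
    obtain ⟨U, hUn, h2U⟩ := two_to_one_of_zeroOrder hφ h2
    rw [e1, e2, e3] at hU
    obtain ⟨x₁, h1, x₂, h2, x₃, h3, e12, e23, n12, n13, n23⟩ := hU U hUn U hUn U hUn
    rcases h2U x₁ h1 x₂ h2 x₃ h3 e12 e23 with h | h | h
    · exact n12 h
    · exact n13 h
    · exact n23 h
  rcases hcoin with h | h | h
  · rw [← h] at hU
    rcases h12 y₁ hy₁ with h1 | h2
    · obtain ⟨U, hUn, hinj⟩ := locally_injective hφ (notMem_crit_of_order_one hφ h1)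
      obtain ⟨x₁, h1, x₂, h2, x₃, -, e12, e23, n12, n13, n23⟩ := hU U hUn U hUn univ univ_mem
      exact n12 (hinj h1 h2 e12)
    · exact hall _ hy₁ h2
  · rw [← h] at hU
    rcases h12 y₁ hy₁ with h1 | h2
    · obtain ⟨U, hUn, hinj⟩ := locally_injective hφ (notMem_crit_of_order_one hφ h1)
      obtain ⟨x₁, h1, x₂, -, x₃, h3, e12, e23, n12, n13, n23⟩ := hU U hUn univ univ_mem U hUn
      exact n13 (hinj h1 h3 (e12.trans e23))
    · exact hall _ hy₁ h2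
  · rw [← h] at hU
    rcases h12 y₂ hy₂ with h1 | h2
    · obtain ⟨U, hUn, hinj⟩ := locally_injective hφ (notMem_crit_of_order_one hφ h1)
      obtain ⟨x₁, -, x₂, h2, x₃, h3, e12, e23, n12, n13, n23⟩ := hU univ univ_mem U hUn U hUn
      exact n23 (hinj h2 h3 e23)
    · exact hall _ hy₂ h2

end Fibers

end Pool.Agent.QP_fa6e01
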