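import Mathlib
import Pool.Agent.QP_fa6e01.Fibers

set_option autoImplicit false
set_option linter.unusedSectionVars false

open Complex Metric Set Filter Topology
open scoped Manifold ContDiff

namespace Pool.Agent.QP_fa6e01

section Descent

variable {X : Type*} [TopologicalSpace X] [ChartedSpace ℂ X] [IsManifold 𝓘(ℂ) ω X]

/-- Identity theorem: a holomorphic self-map which is the identity near a point is the
identity. -/
lemma eq_id_of_eventually [T2Space X] [PreconnectedSpace X] {σ : X → X}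
    (hσ : MDifferentiable 𝓘(ℂ) 𝓘(ℂ) σ) {x₀ : X} (h : ∀ᶠ y in 𝓝 x₀, σ y = y) (x : X) :
    σ x = x := by
  set A : Set X := {x | ∀ᶠ y in 𝓝 x, σ y = y} with hA
  have hAo : IsOpen A := by
    rw [isOpen_iff_mem_nhds]
    intro x hx
    exact eventually_eventually_nhds.mpr hx
  have hAc : IsClosed A := by
    rw [← closure_subset_iff_isClosed]
    intro x hx
    -- `x` is a fixed point
    have hfix : σ x = x := by
      have h1 : IsClosed {x | σ x = x} := isClosed_eq hσ.continuous continuous_id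
      have h2 : A ⊆ {x | σ x = x} := fun y hy => hy.self_of_nhds
      exact h1.closure_subset_iff.mpr h2 hx
    set c := chartAt ℂ x with hc
    have hxs : x ∈ c.source := mem_chart_source ℂ x
    have hct : c x ∈ c.target := mem_chart_target ℂ x
    have hcs : c.symm (c x) = x := c.left_inv hxs
    have hsymm : Tendsto c.symm (𝓝 (c x)) (𝓝 x) := by
      have := (c.continuousAt_symm hct).tendsto
      rwa [hcs] at this
    have hcont : Tendsto c (𝓝 x) (𝓝 (c x)) := c.continuousAt hxs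
    -- `c ∘ σ ∘ c.symm` is differentiable near `c x`
    have hdiff : ∀ᶠ t in 𝓝 (c x), DifferentiableAt ℂ (fun t => c (σ (c.symm t))) t := by
      have h1 : ∀ᶠ t in 𝓝 (c x), t ∈ c.target := c.open_target.mem_nhds hct
      have h2 : ∀ᶠ t in 𝓝 (c x), σ (c.symm t) ∈ c.source := by
        have h3 : Tendsto (fun t => σ (c.symm t)) (𝓝 (c x)) (𝓝 x) := by
          have h4 : Tendsto σ (𝓝 x) (𝓝 x) := by
            have := hσ.continuous.continuousAt (x := x) |>.tendsto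
            rwa [hfix] at this
          exact h4.comp hsymm
        exact h3 (c.open_source.mem_nhds hxs)
      filter_upwards [h1, h2] with t ht1 ht2
      have e1 : MDifferentiableAt 𝓘(ℂ) 𝓘(ℂ) c.symm t :=
        mdifferentiableAt_atlas_symm (chart_mem_atlas ℂ x) ht1
      have e2 : MDifferentiableAt 𝓘(ℂ) 𝓘(ℂ) c (σ (c.symm t)) :=
        mdifferentiableAt_atlas (chart_mem_atlas ℂ x) ht2
      have e3 : MDifferentiableAt 𝓘(ℂ) 𝓘(ℂ) (c ∘ σ ∘ c.symm) t :=
        e2.comp t ((hσ _).comp t e1)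
      rw [mdifferentiableAt_iff_differentiableAt] at e3
      exact e3
    have han : AnalyticAt ℂ (fun t => c (σ (c.symm t))) (c x) :=
      analyticAt_iff_eventually_differentiableAt.mpr hdiff
    -- frequently equal to the identity
    have hfreq : ∃ᶠ t in 𝓝[≠] (c x), c (σ (c.symm t)) = t := by
      rw [frequently_iff]
      intro U hU
      rw [mem_nhdsWithin] at hU
      obtain ⟨V, hVo, hxV, hVU⟩ := hU
      -- nonempty open subset of `V` on which equality holds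
      have h1 : {y | y ∈ c.source ∧ c y ∈ V} ∈ 𝓝 x :=
        Filter.inter_mem (c.open_source.mem_nhds hxs) (hcont (hVo.mem_nhds hxV))
      obtain ⟨y, hyV, hyA⟩ := mem_closure_iff_nhds.mp hx _ h1
      have h2 : {y' | y' ∈ c.source ∧ c y' ∈ V} ∈ 𝓝 y :=
        Filter.inter_mem (c.open_source.mem_nhds hyV.1)
          ((c.continuousAt hyV.1) (hVo.mem_nhds hyV.2))
      have h3 : {y' | (y' ∈ c.source ∧ c y' ∈ V) ∧ σ y' = y'} ∈ 𝓝 y := Filter.inter_mem h2 hyA
      have h4 := infinite_of_mem_nhds' h3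
      obtain ⟨y', ⟨⟨hy1, hy2⟩, hy3⟩, hy4⟩ := h4.exists_notMem_finite (finite_singleton x)
      refine ⟨c y', hVU ⟨hy2, ?_⟩, ?_⟩
      · intro he
        apply hy4
        rw [mem_singleton_iff] at he ⊢
        exact c.injOn hy1 hxs he
      · rw [c.left_inv hy1, hy3]
    have hev := (han.frequently_eq_iff_eventually_eq analyticAt_id).mp hfreq
    show ∀ᶠ y in 𝓝 x, σ y = y
    have h5 : ∀ᶠ y in 𝓝 x, y ∈ c.source := c.open_source.mem_nhds hxs
    have h6 : ∀ᶠ y in 𝓝 x, σ y ∈ c.source := by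
      have := hσ.continuous.continuousAt (x := x) |>.tendsto
      rw [hfix] at this
      exact this (c.open_source.mem_nhds hxs)
    filter_upwards [hcont.eventually hev, h5, h6] with y hy1 hy2 hy3
    rw [c.left_inv hy2] at hy1
    exact c.injOn hy3 hy2 hy1
  have hAu : A = univ := by
    apply IsClopen.eq_univ ⟨hAc, hAo⟩ ⟨x₀, h⟩
  have : x ∈ A := by rw [hAu]; exact mem_univ x
  exact this.self_of_nhds

lemma sigma_ne [T2Space X] [PreconnectedSpace X] {φ : X → ℂ}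
    (hφ : MDifferentiable 𝓘(ℂ) 𝓘(ℂ) φ) {σ : X → X}
    (hσ : MDifferentiable 𝓘(ℂ) 𝓘(ℂ) σ) (hφσ : ∀ x, φ (σ x) = φ x) (hσne : ∃ x, σ x ≠ x) {x : X}
    (hx : x ∉ crit φ) : σ x ≠ x := by
  intro hfix
  obtain ⟨y, hy⟩ := hσne
  apply hy
  apply eq_id_of_eventually hσ (x₀ := x)
  obtain ⟨U, hU, hinj⟩ := locally_injective hφ hx
  have h1 : ∀ᶠ y in 𝓝 x, σ y ∈ U := by
    have := hσ.continuous.continuousAt (x := x) |>.tendsto
    rw [hfix] at this
    exact this hU
  filter_upwards [h1, hU] with y hy1 hy2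
  exact hinj hy1 hy2 (hφσ y)

/-- The fibres of `φ` are the orbits of `σ`. -/
lemma fibre_eq [T2Space X] [PreconnectedSpace X] {φ : X → ℂ}
    (hφ : MDifferentiable 𝓘(ℂ) 𝓘(ℂ) φ) (hφ1 : ∀ x, ‖φ x‖ < 1)
    (hproper : ∀ K : Set ℂ, IsCompact K → K ⊆ ball 0 1 → IsCompact (φ ⁻¹' K))
    (hfin : ∀ r < 1, {x | x ∈ crit φ ∧ ‖φ x‖ ≤ r}.Finite)
    (htwo : ∑ᶠ x, zeroOrder φ x = 2) {σ : X → X}
    (hσ : MDifferentiable 𝓘(ℂ) 𝓘(ℂ) σ) (hφσ : ∀ x, φ (σ x) = φ x) (hσne : ∃ x, σ x ≠ x)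
    {x y : X} (hxy : φ x = φ y) : y = x ∨ y = σ x := by
  -- first over regular values
  have hreg : ∀ x y, φ x ∈ regVal φ → φ x = φ y → y = x ∨ y = σ x := by
    intro x y hx hxy
    by_contra hcon
    push Not at hcon
    have hxc : x ∉ crit φ := fun h => hx.2 ⟨x, h, rfl⟩
    have h1 := sigma_ne hφ hσ hφσ hσne hxc
    exact not_threePts hφ hφ1 hproper hfin htwo hx
      ⟨x, y, σ x, rfl, hxy.symm, hφσ x, hcon.1.symm, h1.symm, hcon.2⟩
  by_contra hcon
  push Not at hcon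
  obtain ⟨h1, h2⟩ := hcon
  obtain ⟨U1, V1, hU1, hV1, hd1⟩ := t2_separation_nhds h1
  obtain ⟨U2, V2, hU2, hV2, hd2⟩ := t2_separation_nhds h2
  have hV2' : σ ⁻¹' V2 ∈ 𝓝 x := (hσ.continuous.continuousAt (x := x)) hV2
  have hW1 := image_mem_nhds_of_open_at hφ hφ1 hfin (Filter.inter_mem hU1 hU2)
  have hW2 := image_mem_nhds_of_open_at hφ hφ1 hfin (Filter.inter_mem hV1 hV2')
  rw [← hxy] at hW1
  have hW3 := regVal_mem_nhdsWithin hfin (hφ1 x)
  have hW4 : ∀ᶠ z in 𝓝[≠] (φ x), z ∈ φ '' (U1 ∩ U2) ∧ z ∈ φ '' (V1 ∩ σ ⁻¹' V2) :=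
    mem_nhdsWithin_of_mem_nhds (Filter.inter_mem hW1 hW2)
  obtain ⟨z, hz1, ⟨y', ⟨hy1, hy2⟩, hy3⟩, ⟨x', ⟨hx1, hx2⟩, hx3⟩⟩ := (hW3.and hW4).exists
  have hz : φ x' ∈ regVal φ := by rw [hx3]; exact hz1
  rcases hreg x' y' hz (by rw [hx3, hy3]) with h | h
  · rw [h] at hy1
    exact disjoint_left.mp hd1 hy1 hx1
  · rw [h] at hy2
    exact disjoint_left.mp hd2 hy2 hx2

lemma surj_ball {φ : X → ℂ}
    (hφ : MDifferentiable 𝓘(ℂ) 𝓘(ℂ) φ) (hφ1 : ∀ x, ‖φ x‖ < 1)
    (hproper : ∀ K : Set ℂ, IsCompact K → K ⊆ ball 0 1 → IsCompact (φ ⁻¹' K))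
    (hfin : ∀ r < 1, {x | x ∈ crit φ ∧ ‖φ x‖ ≤ r}.Finite) [Nonempty X]
    {z : ℂ} (hz : ‖z‖ < 1) : ∃ x, φ x = z := by
  have hopen : IsOpen (range φ) := by
    rw [isOpen_iff_mem_nhds]
    rintro _ ⟨x, rfl⟩
    have := image_mem_nhds_of_open_at hφ hφ1 hfin (x₀ := x) univ_mem
    rwa [image_univ] at this
  have hcl : closure (range φ) ∩ ball 0 1 ⊆ range φ := by
    rintro z₀ ⟨h1, h2⟩
    have h2' : ‖z₀‖ < 1 := by simpa using h2
    obtain ⟨r, hr1, hr2⟩ := exists_between h2'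
    have hK : IsCompact (φ ⁻¹' closedBall 0 r) :=
      hproper _ (isCompact_closedBall _ _) (closedBall_subset_ball hr2)
    have hKc : IsClosed (φ '' (φ ⁻¹' closedBall 0 r)) :=
      (hK.image hφ.continuous).isClosed
    have h3 : z₀ ∈ closure (φ '' (φ ⁻¹' closedBall 0 r)) := by
      rw [mem_closure_iff_nhds] at h1 ⊢
      intro U hU
      have h4 : closedBall (0:ℂ) r ∈ 𝓝 z₀ := closedBall_mem_nhds_of_mem (by simpa using hr1)
      obtain ⟨w, ⟨hw1, hw2⟩, x, rfl⟩ := h1 _ (Filter.inter_mem hU h4)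
      exact ⟨φ x, hw1, x, hw2, rfl⟩
    rw [hKc.closure_eq] at h3
    obtain ⟨x, -, hx⟩ := h3
    exact ⟨x, hx⟩
  obtain ⟨x₀⟩ := (inferInstance : Nonempty X)
  have hpre : IsPreconnected (ball (0:ℂ) 1) := (convex_ball 0 1).isPreconnected
  have hsub := hpre.subset_of_closure_inter_subset hopen
    ⟨φ x₀, by simpa using hφ1 x₀, x₀, rfl⟩ hcl
  exact hsub (by simpa using hz)

/-- Holomorphic functions constant on the fibres of `φ` descend to the disc. -/
lemma descent {φ : X → ℂ}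
    (hφ : MDifferentiable 𝓘(ℂ) 𝓘(ℂ) φ) (hφ1 : ∀ x, ‖φ x‖ < 1)
    (hproper : ∀ K : Set ℂ, IsCompact K → K ⊆ ball 0 1 → IsCompact (φ ⁻¹' K))
    (hfin : ∀ r < 1, {x | x ∈ crit φ ∧ ‖φ x‖ ≤ r}.Finite) [Nonempty X]
    {F : X → ℂ} (hF : MDifferentiable 𝓘(ℂ) 𝓘(ℂ) F) (hinv : ∀ x y, φ x = φ y → F x = F y) :
    ∃ s : ℂ → ℂ, DifferentiableOn ℂ s (ball 0 1) ∧ ∀ x, s (φ x) = F x := by
  classical
  have hsurj : ∀ z : ℂ, ‖z‖ < 1 → ∃ x, φ x = z := fun z hz =>
    surj_ball hφ hφ1 hproper hfin hz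
  -- a set-theoretic section
  have hch : ∀ z : ℂ, ∃ x : X, ‖z‖ < 1 → φ x = z := by
    intro z
    by_cases hz : ‖z‖ < 1
    · obtain ⟨x, hx⟩ := hsurj z hz
      exact ⟨x, fun _ => hx⟩
    · obtain ⟨x⟩ := (inferInstance : Nonempty X)
      exact ⟨x, fun h => absurd h hz⟩
  choose q hq using hch
  set s : ℂ → ℂ := fun z => F (q z) with hs
  have hsφ : ∀ x, s (φ x) = F x := fun x => hinv _ _ (hq _ (hφ1 x))
  -- continuity of `s`
  have hscont : ∀ z₀ : ℂ, ‖z₀‖ < 1 → ContinuousAt s z₀ := by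
    intro z₀ hz₀
    obtain ⟨r, hr1, hr2⟩ := exists_between hz₀
    have hK : IsCompact (φ ⁻¹' closedBall 0 r) :=
      hproper _ (isCompact_closedBall _ _) (closedBall_subset_ball hr2)
    have hKn : closedBall (0:ℂ) r ∈ 𝓝 z₀ := closedBall_mem_nhds_of_mem (by simpa using hr1)
    rw [ContinuousAt, tendsto_iff_ultrafilter]
    intro u hu
    have hball : ∀ᶠ z in (u : Filter ℂ), z ∈ closedBall (0:ℂ) r := hu hKn
    have h1 : ∀ᶠ z in (u : Filter ℂ), φ (q z) = z := by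
      filter_upwards [hball] with z hz
      apply hq
      rw [mem_closedBall_zero_iff] at hz
      linarith
    have h2 : ∀ᶠ z in (u : Filter ℂ), q z ∈ φ ⁻¹' closedBall 0 r := by
      filter_upwards [h1, hball] with z hz1 hz2
      rw [mem_preimage, hz1]
      exact hz2
    obtain ⟨y, -, hy⟩ := hK.ultrafilter_le_nhds (u.map q) (by
      rw [le_principal_iff]
      exact h2)
    have hy' : Tendsto q u (𝓝 y) := hy
    have h3 : Tendsto (fun z => φ (q z)) u (𝓝 (φ y)) :=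
      (hφ.continuous.continuousAt.tendsto).comp hy'
    have h4 : Tendsto (fun z => φ (q z)) u (𝓝 z₀) := by
      have h4 : Tendsto (fun z : ℂ => z) u (𝓝 z₀) := hu
      apply h4.congr'
      filter_upwards [h1] with z hz
      exact hz.symm
    have h5 : φ y = z₀ := tendsto_nhds_unique h3 h4
    have h6 : s z₀ = F y := by rw [← h5, hsφ]
    rw [h6]
    exact (hF.continuous.continuousAt.tendsto).comp hy'
  -- analyticity at regular values
  have hsreg : ∀ z₀ ∈ regVal φ, AnalyticAt ℂ s z₀ := by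
    intro z₀ hz₀
    obtain ⟨x₀, hx₀⟩ := hsurj z₀ (by simpa using hz₀.1)
    have hx₀c : x₀ ∉ crit φ := fun h => hz₀.2 ⟨x₀, h, hx₀⟩
    obtain ⟨G, -, -, h3, -, h5⟩ := local_section hφ hx₀c
    have h6 := h5 F hF
    rw [hx₀] at h3 h6
    apply h6.congr
    filter_upwards [h3] with z hz
    show F (G z) = s z
    rw [← hsφ, hz]
  refine ⟨s, ?_, hsφ⟩
  intro z₀ hz₀
  have hz₀' : ‖z₀‖ < 1 := by simpa using hz₀
  apply AnalyticAt.differentiableWithinAt
  apply Complex.analyticAt_of_differentiable_on_punctured_nhds_of_continuousAt _ (hscont z₀ hz₀')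
  filter_upwards [regVal_mem_nhdsWithin hfin hz₀'] with z hz
  exact (hsreg z hz).differentiableAt

end Descent

end Pool.Agent.QP_fa6e01
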