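import Mathlib

set_option autoImplicit false

open Filter Topology

namespace Pool.Agent.QP_fa6e01

lemma le_one_of_pow_bounded {x C : ℝ} (h : ∀ k : ℕ, 1 ≤ k → x ^ k ≤ C) : x ≤ 1 := by
  by_contra hcon
  push Not at hcon
  have h1 := tendsto_pow_atTop_atTop_of_one_lt hcon
  obtain ⟨k, hk1, hk2⟩ := ((h1.eventually (eventually_gt_atTop C)).and (eventually_ge_atTop 1)).exists
  exact absurd (h k hk2) (not_le.mpr hk1)

/-- If all power sums of two complex numbers are bounded by `2` then they lie in the closed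
unit disc. -/
lemma norm_le_one_of_power_sums {a b : ℂ} (h : ∀ k : ℕ, 1 ≤ k → ‖a ^ k + b ^ k‖ ≤ 2) :
    ‖a‖ ≤ 1 := by
  have hprod : ‖a * b‖ ≤ 1 := by
    apply le_one_of_pow_bounded (C := 3)
    intro k hk
    have h1 := h k hk
    have h2 := h (2 * k) (by omega)
    have h3 : 2 * (a * b) ^ k = (a ^ k + b ^ k) ^ 2 - (a ^ (2 * k) + b ^ (2 * k)) := by
      rw [mul_pow, two_mul k, pow_add, pow_add]
      ring
    have h4 : 2 * ‖a * b‖ ^ k ≤ 6 := by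
      calc 2 * ‖a * b‖ ^ k = ‖2 * (a * b) ^ k‖ := by
            rw [norm_mul (2:ℂ), norm_pow, Complex.norm_two]
        _ = ‖(a ^ k + b ^ k) ^ 2 - (a ^ (2 * k) + b ^ (2 * k))‖ := by rw [h3]
        _ ≤ ‖(a ^ k + b ^ k) ^ 2‖ + ‖a ^ (2 * k) + b ^ (2 * k)‖ := norm_sub_le _ _
        _ ≤ 2 ^ 2 + 2 := by
            rw [norm_pow]
            gcongr
        _ = 6 := by norm_num
    linarith
  apply le_one_of_pow_bounded (C := 3)
  intro k hk
  have h1 := h k hk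
  have h2 : (a ^ k) ^ 2 = (a ^ k + b ^ k) * a ^ k - (a * b) ^ k := by
    rw [mul_pow]; ring
  have h3 : (‖a‖ ^ k) ^ 2 ≤ 2 * ‖a‖ ^ k + 1 := by
    calc (‖a‖ ^ k) ^ 2 = ‖(a ^ k) ^ 2‖ := by rw [norm_pow, norm_pow]
      _ = ‖(a ^ k + b ^ k) * a ^ k - (a * b) ^ k‖ := by rw [h2]
      _ ≤ ‖(a ^ k + b ^ k) * a ^ k‖ + ‖(a * b) ^ k‖ := norm_sub_le _ _
      _ ≤ 2 * ‖a‖ ^ k + 1 := by
          rw [norm_mul, norm_pow, norm_pow]
          gcongr
          exact pow_le_one₀ (norm_nonneg _) hprod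
  nlinarith [norm_nonneg a, pow_nonneg (norm_nonneg a) k]

end Pool.Agent.QP_fa6e01
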