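import Mathlib
import Pool.Agent.QP_fa6e01.Averages
import Pool.Agent.QP_fa6e01.Descent
import Pool.Agent.QP_fa6e01.Power

set_option autoImplicit false
set_option linter.unusedSectionVars false

open Complex Metric Set Filter Real Topology ComplexConjugate MeasureTheory
open scoped ENNReal Manifold ContDiff

namespace Pool.Agent.QP_fa6e01

section

variable {X : Type*} [TopologicalSpace X] [ChartedSpace ℂ X] [IsManifold 𝓘(ℂ) ω X]
variable {φ : X → ℂ} {σ : X → X} {B : ℂ → ℂ} {ϑ : X → ℂ}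

namespace TwoSheeted

lemma crit_fin (h : TwoSheeted φ σ B ϑ) : ∀ r < 1, {x | x ∈ crit φ ∧ ‖φ x‖ ≤ r}.Finite := by
  intro r hr
  have h1 := h.crit_summable.tendsto_cofinite_zero
  have h2 : ∀ᶠ x : crit φ in cofinite, 1 - ‖φ x‖ < 1 - r :=
    h1.eventually (gt_mem_nhds (by linarith))
  rw [eventually_cofinite] at h2
  apply (h2.image (Subtype.val)).subset
  rintro x ⟨hx1, hx2⟩
  refine ⟨⟨x, hx1⟩, ?_, rfl⟩
  show ¬ (1 - ‖φ x‖ < 1 - r)
  linarith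

lemma norm_val_lt (h : TwoSheeted φ σ B ϑ) (v : ↥(φ '' crit φ)) : ‖(v : ℂ)‖ < 1 := by
  obtain ⟨_, x, _, rfl⟩ := v
  exact h.norm_lt x

lemma summable_val (h : TwoSheeted φ σ B ϑ) :
    Summable (fun v : ↥(φ '' crit φ) => 1 - ‖(v : ℂ)‖) := by
  choose g hg hgφ using fun v : ↥(φ '' crit φ) => v.2
  have hinj : Function.Injective (fun v : ↥(φ '' crit φ) => (⟨g v, hg v⟩ : crit φ)) := by
    intro v w hvw
    have h1 : g v = g w := congrArg Subtype.val hvw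
    apply Subtype.ext
    rw [← hgφ v, ← hgφ w, h1]
  have h1 := h.crit_summable.comp_injective hinj
  apply h1.congr
  intro v
  simp only [Function.comp_apply]
  rw [hgφ v]

lemma norm_B (h : TwoSheeted φ σ B ϑ) {z : ℂ} (hz : ‖z‖ < 1) :
    ‖B z‖ = ‖bprod (fun v : ↥(φ '' crit φ) => (v : ℂ)) z‖ := by
  obtain ⟨c, hc, hB⟩ := h.blaschke
  rw [hB z hz, norm_mul, hc, one_mul]
  rfl

lemma norm_B_lt (h : TwoSheeted φ σ B ϑ) {z : ℂ} (hz : ‖z‖ < 1) : ‖B z‖ < 1 := by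
  classical
  rw [h.norm_B hz]
  obtain ⟨x, hx⟩ := h.crit_infinite.nonempty
  set v : ↥(φ '' crit φ) := ⟨φ x, x, hx, rfl⟩ with hv
  rw [bprod_split h.norm_val_lt h.summable_val {v} hz, norm_mul]
  have h1 : ‖∏ i ∈ ({v} : Finset ↥(φ '' crit φ)), blaschkeFactor (i : ℂ) z‖ < 1 := by
    rw [Finset.prod_singleton]
    exact norm_blaschkeFactor_lt (h.norm_val_lt v) hz
  have h2 : ‖bprod (fun i : {i : ↥(φ '' crit φ) // i ∉ ({v} : Finset ↥(φ '' crit φ))} =>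
      ((i : ↥(φ '' crit φ)) : ℂ)) z‖ ≤ 1 :=
    norm_bprod_le_one (a := fun i : {i : ↥(φ '' crit φ) // i ∉ ({v} : Finset ↥(φ '' crit φ))} =>
      ((i : ↥(φ '' crit φ)) : ℂ)) (fun i => h.norm_val_lt i) (h.summable_val.subtype _) hz
  nlinarith [norm_nonneg (∏ i ∈ ({v} : Finset ↥(φ '' crit φ)), blaschkeFactor (i : ℂ) z),
    norm_nonneg (bprod (fun i : {i : ↥(φ '' crit φ) // i ∉ ({v} : Finset ↥(φ '' crit φ))} =>
      ((i : ↥(φ '' crit φ)) : ℂ)) z)]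

lemma continuousOn_B (h : TwoSheeted φ σ B ϑ) : ContinuousOn B (ball 0 1) := by
  obtain ⟨c, hc, hB⟩ := h.blaschke
  have h1 := (differentiableOn_bprod h.norm_val_lt h.summable_val).continuousOn.const_smul c
  apply h1.congr
  intro z hz
  rw [hB z (by simpa using hz)]
  rfl

lemma B_crit (h : TwoSheeted φ σ B ϑ) {x : X} (hx : x ∈ crit φ) : B (φ x) = 0 := by
  rw [← norm_eq_zero, h.norm_B (h.norm_lt x)]
  have := bprod_apply_zero h.norm_val_lt h.summable_val ⟨φ x, x, hx, rfl⟩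
  rw [this, norm_zero]

lemma theta_crit (h : TwoSheeted φ σ B ϑ) {x : X} (hx : x ∈ crit φ) : ϑ x = 0 := by
  have h1 := h.theta_sq x
  rw [h.B_crit hx] at h1
  exact pow_eq_zero_iff (two_ne_zero) |>.mp h1

lemma norm_theta_lt (h : TwoSheeted φ σ B ϑ) (x : X) : ‖ϑ x‖ < 1 := by
  have h1 : ‖ϑ x‖ ^ 2 < 1 := by
    rw [← norm_pow, h.theta_sq x]
    exact h.norm_B_lt (h.norm_lt x)
  nlinarith [norm_nonneg (ϑ x)]

lemma fibre [T2Space X] [ConnectedSpace X] (h : TwoSheeted φ σ B ϑ) {x y : X}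
    (hxy : φ x = φ y) : y = x ∨ y = σ x :=
  fibre_eq h.holo h.norm_lt h.proper h.crit_fin h.two_zeros h.sigma_holo h.phi_sigma h.sigma_ne hxy

end TwoSheeted

/-- The inner function `φ * mob (1/2) ϑ`. -/
noncomputable def Th (φ ϑ : X → ℂ) (x : X) : ℂ := φ x * mob (1 / 2) (ϑ x)

/-- Its Frostman shift. -/
noncomputable def shift (φ ϑ : X → ℂ) (η : ℂ) (x : X) : ℂ := mob η (Th φ ϑ x)

namespace TwoSheeted

lemma norm_Th_lt (h : TwoSheeted φ σ B ϑ) (x : X) : ‖Th φ ϑ x‖ < 1 := by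
  have h1 := norm_mob_lt norm_half_lt (h.norm_theta_lt x)
  rw [Th, norm_mul]
  nlinarith [h.norm_lt x, norm_nonneg (φ x), norm_nonneg (mob (1 / 2) (ϑ x))]

lemma norm_shift_lt (h : TwoSheeted φ σ B ϑ) {η : ℂ} (hη : ‖η‖ < 1) (x : X) :
    ‖shift φ ϑ η x‖ < 1 := norm_mob_lt hη (h.norm_Th_lt x)

lemma mdifferentiable_Th (h : TwoSheeted φ σ B ϑ) : MDifferentiable 𝓘(ℂ) 𝓘(ℂ) (Th φ ϑ) := by
  have h1 : MDifferentiable 𝓘(ℂ) 𝓘(ℂ) (fun x => mob (1 / 2) (ϑ x)) := by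
    intro x
    exact ((differentiableAt_mob norm_half_lt (h.norm_theta_lt x)).mdifferentiableAt).comp x
      (h.theta_holo x)
  exact h.holo.mul h1

lemma mdifferentiable_shift (h : TwoSheeted φ σ B ϑ) {η : ℂ} (hη : ‖η‖ < 1) :
    MDifferentiable 𝓘(ℂ) 𝓘(ℂ) (shift φ ϑ η) := by
  intro x
  exact ((differentiableAt_mob hη (h.norm_Th_lt x)).mdifferentiableAt).comp x
      (h.mdifferentiable_Th x)

end TwoSheeted

end

end Pool.Agent.QP_fa6e01
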