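import Mathlib
import Pool.Agent.QP_fa6e01.QuasiProper

set_option autoImplicit false
set_option linter.unusedSectionVars false

open Complex Metric Set Filter Real Topology ComplexConjugate MeasureTheory
open scoped ENNReal Manifold ContDiff

namespace Pool.Agent.QP_fa6e01

section

variable {X : Type*} [TopologicalSpace X] [ChartedSpace ℂ X] [IsManifold 𝓘(ℂ) ω X]
variable {φ : X → ℂ} {σ : X → X} {B : ℂ → ℂ} {ϑ : X → ℂ}

/-- The values of `Th` at the two points over `z` are `Om B 1 z` and `Om B (-1) z`. -/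
lemma Th_eq_Om (h : TwoSheeted φ σ B ϑ) (x : X) :
    (Th φ ϑ x = Om B 1 (φ x) ∧ Th φ ϑ (σ x) = Om B (-1) (φ x)) ∨
    (Th φ ϑ x = Om B (-1) (φ x) ∧ Th φ ϑ (σ x) = Om B 1 (φ x)) := by
  have h1 : ϑ x ^ 2 = ((B (φ x)) ^ (1 / 2 : ℂ)) ^ 2 := by rw [cpow_half_sq, h.theta_sq]
  rw [sq_eq_sq_iff_eq_or_eq_neg] at h1
  unfold Th Om
  rw [h.phi_sigma, h.theta_sigma]
  rcases h1 with h1 | h1
  · left
    rw [h1]
    simp
  · right
    rw [h1]
    simp

/-- A dense sequence in the disc. -/
noncomputable def dq (m : ℕ) : ℂ := (TopologicalSpace.denseSeq (ball (0:ℂ) 1) m : ball (0:ℂ) 1)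

lemma norm_dq_lt (m : ℕ) : ‖dq m‖ < 1 :=
  mem_ball_zero_iff.mp (TopologicalSpace.denseSeq (ball (0:ℂ) 1) m).2

/-- For almost every point `η` of the circle of radius `1/2` the Frostman shift is controlled
on a dense set of circles. -/
lemma exists_good_eta (h : TwoSheeted φ σ B ϑ) :
    ∃ s : ℝ, ∀ m : ℕ,
      liminf (fun n => ∫⁻ t in Ioc 0 (2 * π),
        (frostKernel (Om B 1 (mob (dq m)
          (circleMap 0 (rad n) t))) s +
        frostKernel (Om B (-1) (mob (dq m)
          (circleMap 0 (rad n) t))) s)) atTop = 0 := by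
  have hall : ∀ᵐ s ∂(volume.restrict (Ioc 0 (2 * π))), ∀ m : ℕ,
      liminf (fun n => (∫⁻ t in Ioc 0 (2 * π),
        frostKernel (Om B 1 (mob (dq m)
          (circleMap 0 (rad n) t))) s) +
        ∫⁻ t in Ioc 0 (2 * π),
        frostKernel (Om B (-1) (mob (dq m)
          (circleMap 0 (rad n) t))) s) atTop = 0 := by
    rw [ae_all_iff]
    intro m
    have hz := norm_dq_lt m
    apply frostman
    · intro n
      exact measurable_Om_circle h.continuousOn_B 1 hz (rad_pos n) (rad_lt_one n)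
    · intro n t
      have h1 := circleMap_mem hz (rad_pos n) (rad_lt_one n) t
      exact norm_Om_lt (by simp) h1 (h.norm_B_lt h1)
    · intro n
      exact measurable_Om_circle h.continuousOn_B (-1) hz (rad_pos n) (rad_lt_one n)
    · intro n t
      have h1 := circleMap_mem hz (rad_pos n) (rad_lt_one n) t
      exact norm_Om_lt (by simp) h1 (h.norm_B_lt h1)
    · exact tendsto_lintegral_Om h.norm_val_lt h.summable_val (fun z hz => h.norm_B hz)
        (fun z hz => h.norm_B_lt hz) (by simp) hz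
    · exact tendsto_lintegral_Om h.norm_val_lt h.summable_val (fun z hz => h.norm_B hz)
        (fun z hz => h.norm_B_lt hz) (by simp) hz
  have hne : (ae (volume.restrict (Ioc 0 (2 * π)))).NeBot := by
    rw [ae_neBot]
    intro h0
    rw [Measure.restrict_eq_zero] at h0
    simp at h0
    linarith [Real.pi_pos]
  obtain ⟨s, hs⟩ := hall.exists
  refine ⟨s, fun m => ?_⟩
  have hz := norm_dq_lt m
  rw [← hs m]
  congr 1
  ext n
  rw [lintegral_add_left]
  exact measurable_frostKernel_left
    (measurable_Om_circle h.continuousOn_B 1 hz (rad_pos n) (rad_lt_one n)) s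

/-- The key estimate: division by the shift does not increase the supremum. -/
lemma norm_le_one_of_shift_mul_le [T2Space X] [ConnectedSpace X]
    (h : TwoSheeted φ σ B ϑ) {s : ℝ}
    (hs : ∀ m : ℕ,
      liminf (fun n => ∫⁻ t in Ioc 0 (2 * π),
        (frostKernel (Om B 1 (mob (dq m)
          (circleMap 0 (rad n) t))) s +
        frostKernel (Om B (-1) (mob (dq m)
          (circleMap 0 (rad n) t))) s)) atTop = 0)
    {f : X → ℂ} (hf : MDifferentiable 𝓘(ℂ) 𝓘(ℂ) f)
    (hb : ∀ x, ‖shift φ ϑ (etaMap s) x * f x‖ ≤ 1) (x : X) : ‖f x‖ ≤ 1 := by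
  apply norm_le_one_of_power_sums (b := f (σ x))
  intro k hk
  -- descend the power sum
  have hFd : MDifferentiable 𝓘(ℂ) 𝓘(ℂ) (fun y => f y ^ k + f (σ y) ^ k) := by
    have h1 : MDifferentiable 𝓘(ℂ) 𝓘(ℂ) (f ∘ σ) := hf.comp h.sigma_holo
    exact (hf.pow k).add (h1.pow k)
  obtain ⟨S, hSd, hSφ⟩ := descent h.holo h.norm_lt h.proper h.crit_fin hFd (by
    intro y y' hyy'
    rcases h.fibre hyy' with e | e
    · rw [e]
    · rw [e, h.sigma_sigma]
      ring)
  -- bound on the dense sequence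
  have hdense : ∀ m : ℕ, ‖S (dq m)‖ ≤ 2 := by
    intro m
    have hz := norm_dq_lt m
    apply norm_le_of_liminf hSd hz two_pos (k := k) (Nat.cast_nonneg k) (r := rad)
      rad_pos rad_lt_one _ (hs m)
    · intro n t hE
      set z := mob (dq m) (circleMap 0 (rad n) t) with hzdef
      have hz1 : ‖z‖ < 1 := circleMap_mem hz (rad_pos n) (rad_lt_one n) t
      obtain ⟨y, hy⟩ := surj_ball h.holo h.norm_lt h.proper h.crit_fin hz1
      have hη := norm_etaMap_lt s
      -- the kernels are finite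
      rw [ENNReal.add_ne_top] at hE
      have hk1 : etaMap s ≠ Om B 1 z := by
        intro he
        apply hE.1
        rw [frostKernel, if_pos he]
      have hk2 : etaMap s ≠ Om B (-1) z := by
        intro he
        apply hE.2
        rw [frostKernel, if_pos he]
      have hO1 : ‖Om B 1 z‖ < 1 := norm_Om_lt (by simp) hz1 (h.norm_B_lt hz1)
      have hO2 : ‖Om B (-1) z‖ < 1 := norm_Om_lt (by simp) hz1 (h.norm_B_lt hz1)
      set p := ‖mob (etaMap s) (Om B 1 z)‖ with hp
      set q := ‖mob (etaMap s) (Om B (-1) z)‖ with hq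
      have hp0 : 0 < p := norm_pos_iff.mpr (fun e => hk1 ((mob_eq_zero_iff hη hO1).mp e).symm)
      have hq0 : 0 < q := norm_pos_iff.mpr (fun e => hk2 ((mob_eq_zero_iff hη hO2).mp e).symm)
      have hp1 : p ≤ 1 := (norm_mob_lt hη hO1).le
      have hq1 : q ≤ 1 := (norm_mob_lt hη hO2).le
      have e1 : (frostKernel (Om B 1 z) s).toReal = -Real.log p := by
        rw [frostKernel, if_neg hk1, ENNReal.toReal_ofReal]
        rw [neg_nonneg]
        exact Real.log_nonpos hp0.le hp1
      have e2 : (frostKernel (Om B (-1) z) s).toReal = -Real.log q := by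
        rw [frostKernel, if_neg hk2, ENNReal.toReal_ofReal]
        rw [neg_nonneg]
        exact Real.log_nonpos hq0.le hq1
      rw [ENNReal.toReal_add hE.1 hE.2, e1, e2]
      -- bounds for `f`
      have hfy : ‖f y‖ ≤ 1 / (p * q) ∧ ‖f (σ y)‖ ≤ 1 / (p * q) := by
        have b1 := hb y
        have b2 := hb (σ y)
        rw [norm_mul] at b1 b2
        have key : ∀ {u v w : ℝ}, 0 < u → 0 < v → u ≤ 1 → v ≤ 1 → 0 ≤ w → u * w ≤ 1 →
            w ≤ 1 / (u * v) := by
          intro u v w hu hv hu1 hv1 hw huw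
          rw [le_div_iff₀ (mul_pos hu hv)]
          nlinarith [mul_nonneg hu.le hw]
        have key' : ∀ {u v w : ℝ}, 0 < u → 0 < v → u ≤ 1 → v ≤ 1 → 0 ≤ w → v * w ≤ 1 →
            w ≤ 1 / (u * v) := by
          intro u v w hu hv hu1 hv1 hw huw
          rw [mul_comm u v]
          exact key hv hu hv1 hu1 hw huw
        have hsh : ∀ y', ‖shift φ ϑ (etaMap s) y'‖ = ‖mob (etaMap s) (Th φ ϑ y')‖ :=
          fun _ => rfl
        rw [hsh] at b1 b2
        rcases Th_eq_Om h y with ⟨t1, t2⟩ | ⟨t1, t2⟩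
        · rw [t1, hy] at b1
          rw [t2, hy] at b2
          exact ⟨key hp0 hq0 hp1 hq1 (norm_nonneg _) b1, key' hp0 hq0 hp1 hq1 (norm_nonneg _) b2⟩
        · rw [t1, hy] at b1
          rw [t2, hy] at b2
          exact ⟨key' hp0 hq0 hp1 hq1 (norm_nonneg _) b1, key hp0 hq0 hp1 hq1 (norm_nonneg _) b2⟩
      have hSz : ‖S z‖ ≤ 2 * (1 / (p * q)) ^ k := by
        rw [← hy, hSφ]
        calc ‖f y ^ k + f (σ y) ^ k‖ ≤ ‖f y‖ ^ k + ‖f (σ y)‖ ^ k := by
              refine (norm_add_le _ _).trans ?_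
              rw [norm_pow, norm_pow]
          _ ≤ (1 / (p * q)) ^ k + (1 / (p * q)) ^ k := by
              gcongr
              · exact hfy.1
              · exact hfy.2
          _ = 2 * (1 / (p * q)) ^ k := by ring
      have hlog : Real.log (2 * (1 / (p * q)) ^ k) =
          Real.log 2 + k * (-Real.log p + -Real.log q) := by
        rw [Real.log_mul (by norm_num) (by positivity), Real.log_pow, one_div, Real.log_inv,
          Real.log_mul hp0.ne' hq0.ne']
        ring
      rw [← hlog]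
      by_cases hS0 : S z = 0
      · rw [hS0, norm_zero, Real.log_zero]
        apply Real.log_nonneg
        have : 1 ≤ 1 / (p * q) := by
          rw [le_div_iff₀ (mul_pos hp0 hq0)]
          nlinarith
        have := one_le_pow₀ this (n := k)
        linarith
      · exact Real.log_le_log (norm_pos_iff.mpr hS0) hSz
    · intro n
      have m1 := measurable_Om_circle h.continuousOn_B 1 hz (rad_pos n) (rad_lt_one n)
      have m2 := measurable_Om_circle h.continuousOn_B (-1) hz (rad_pos n) (rad_lt_one n)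
      exact (measurable_frostKernel_left m1 s).add (measurable_frostKernel_left m2 s)
  -- extend by continuity
  have hball : ∀ z : ball (0:ℂ) 1, ‖S z‖ ≤ 2 := by
    have hcl : IsClosed {z : ball (0:ℂ) 1 | ‖S z‖ ≤ 2} := by
      apply isClosed_le _ continuous_const
      exact (hSd.continuousOn.domRestrict).norm
    have hd := TopologicalSpace.denseRange_denseSeq (ball (0:ℂ) 1)
    have hsub : closure (range (TopologicalSpace.denseSeq (ball (0:ℂ) 1))) ⊆
        {z : ball (0:ℂ) 1 | ‖S z‖ ≤ 2} := by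
      apply hcl.closure_subset_iff.mpr
      rintro _ ⟨m, rfl⟩
      exact hdense m
    intro z
    exact hsub (hd z)
  have := hball ⟨φ x, by simpa using h.norm_lt x⟩
  rw [← hSφ x]
  exact this

/-- Existence of a quasi-proper Frostman shift. -/
lemma exists_quasiProper_shift [T2Space X] [ConnectedSpace X]
    (h : TwoSheeted φ σ B ϑ) : ∃ η : ℂ, ‖η‖ = 1 / 2 ∧ IsQuasiProper (shift φ ϑ η) := by
  obtain ⟨s, hs⟩ := exists_good_eta h
  refine ⟨etaMap s, norm_etaMap s, h.mdifferentiable_shift (norm_etaMap_lt s),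
    h.norm_shift_lt (norm_etaMap_lt s), ?_⟩
  intro f hf
  apply le_antisymm
  · -- the nontrivial inequality
    by_cases htop : ⨆ x, ‖shift φ ϑ (etaMap s) x * f x‖ₑ = ⊤
    · rw [htop]; exact le_top
    set C : ℝ := (⨆ x, ‖shift φ ϑ (etaMap s) x * f x‖ₑ).toReal with hC
    have hCe : ENNReal.ofReal C = ⨆ x, ‖shift φ ϑ (etaMap s) x * f x‖ₑ :=
      ENNReal.ofReal_toReal htop
    have hCb : ∀ x, ‖shift φ ϑ (etaMap s) x * f x‖ ≤ C := by
      intro x
      have h1 : ‖shift φ ϑ (etaMap s) x * f x‖ₑ ≤ ⨆ x, ‖shift φ ϑ (etaMap s) x * f x‖ₑ :=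
        le_iSup (fun x => ‖shift φ ϑ (etaMap s) x * f x‖ₑ) x
      rw [← ofReal_norm] at h1
      exact (ENNReal.ofReal_le_iff_le_toReal htop).mp h1
    have hC0 : 0 ≤ C := ENNReal.toReal_nonneg
    have hkey : ∀ x, ∀ ε > 0, ‖f x‖ ≤ C + ε := by
      intro x ε hε
      have hpos : 0 < C + ε := by linarith
      have hg : MDifferentiable 𝓘(ℂ) 𝓘(ℂ) (fun y => ((C + ε : ℝ) : ℂ)⁻¹ * f y) := by
        have h0 : MDifferentiable 𝓘(ℂ) 𝓘(ℂ) (fun _ : X => ((C + ε : ℝ) : ℂ)⁻¹) :=
          mdifferentiable_const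
        exact h0.mul hf
      have h2 := norm_le_one_of_shift_mul_le h hs hg (by
        intro y
        have e : shift φ ϑ (etaMap s) y * (((C + ε : ℝ) : ℂ)⁻¹ * f y) =
            ((C + ε : ℝ) : ℂ)⁻¹ * (shift φ ϑ (etaMap s) y * f y) := by ring
        rw [e, norm_mul, norm_inv, Complex.norm_real, Real.norm_of_nonneg hpos.le,
          inv_mul_le_iff₀ hpos, mul_one]
        linarith [hCb y]) x
      rw [norm_mul, norm_inv, Complex.norm_real, Real.norm_of_nonneg hpos.le,
        inv_mul_le_iff₀ hpos, mul_one] at h2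
      exact h2
    rw [← hCe]
    apply iSup_le
    intro x
    rw [← ofReal_norm]
    apply ENNReal.ofReal_le_ofReal
    exact le_of_forall_pos_le_add (hkey x)
  · apply iSup_mono
    intro x
    rw [← ofReal_norm, ← ofReal_norm]
    apply ENNReal.ofReal_le_ofReal
    rw [norm_mul]
    exact mul_le_of_le_one_left (norm_nonneg _) (h.norm_shift_lt (norm_etaMap_lt s) x).le

end

end Pool.Agent.QP_fa6e01
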